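import Pool.Agent.H620R2.Gauge2.CoverN
import Pool.Agent.H620R2.Gauge2.CoverE
import Pool.Agent.H620R2.Gauge2.V7

/-!
# The balanced search language

`x` is in the language if it has a witness number `j` with `j % 2 ^ k < r` all of whose strings are
in the oracle. For a random oracle, the probability that there is no witness tends to
`exp (- r / 2 ^ k)`.
-/

set_option autoImplicit false

namespace Pool.Agent.Helper11x.QG

open Pool.Agent.NPC Pool.Agent.H620R2.Gauge Pool.Agent.H622R2 Finset Filter Topology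

/-- the balanced search language -/
def balLang (k r : ℕ) (A : Oracle) : Set (List Bool) :=
  {x | ∃ j < 2 ^ x.length, j % 2 ^ k < r ∧ ∀ i < x.length, A (wit x j i) = true}

namespace BalNP

/-- the verdict -/
def H (k r : ℕ) (y : List Bool × List Bool) : List Bool :=
  [decide ((unpair y.1).1.length = (unpair y.1).2.length) &&
    (decide (valB (unpair y.1).1 % 2 ^ k < r) && y.2.all (fun b => b))]

theorem poly_H (k r : ℕ) : Poly (H k r) := by
  have hw : Poly (fun y : List Bool => (unpair y).1) := Poly.fst poly_unpair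
  have hx : Poly (fun y : List Bool => (unpair y).2) := Poly.snd poly_unpair
  have hx' : Poly (fun p : List Bool × List Bool => (unpair p.1).2) := hx.comp (Poly.fst Poly.id)
  have hw' : Poly (fun p : List Bool × List Bool => (unpair p.1).1) := hw.comp (Poly.fst Poly.id)
  unfold H
  refine Poly.cons (Poly.and (Poly.decide_eq (Poly.length hw') (Poly.length hx')) (Poly.and ?_ ?_))
    (NPC.Poly.const [])
  · exact Poly.decide_lt (Poly.mod (Poly.valBits hw') (NPC.Poly.const _)) (NPC.Poly.const _)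
  · exact Poly.all (p := fun (_ : List Bool × List Bool) (b : Bool) => b) (Poly.snd Poly.id)
      (Poly.snd Poly.id)

end BalNP

theorem balLang_np (k r : ℕ) (A : Oracle) : IsNP A (balLang k r A) := by
  refine ⟨fun y => BalNP.H k r (y, (V7.Q y).map A), Polynomial.X,
    IsFP.tt V7.poly_Q (BalNP.poly_H k r), fun x => ?_⟩
  have key : ∀ w : List Bool, BalNP.H k r (pairBits w x, (V7.Q (pairBits w x)).map A) = [true] ↔
      (w.length = x.length ∧ valB w % 2 ^ k < r ∧
        ∀ i < x.length, A (x ++ w ++ List.replicate i true) = true) := by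
    intro w
    unfold BalNP.H V7.Q
    simp only [unpair_pairBits, List.cons.injEq, and_true, Bool.and_eq_true, decide_eq_true_eq,
      List.all_eq_true, List.mem_map, List.mem_range]
    constructor
    · rintro ⟨h1, h3, h2⟩
      refine ⟨h1, h3, fun i hi => ?_⟩
      apply h2
      refine ⟨_, ⟨i, hi, rfl⟩, ?_⟩
      rw [min_eq_left hi.le]
    · rintro ⟨h1, h3, h2⟩
      refine ⟨h1, h3, ?_⟩
      rintro b ⟨_, ⟨i, hi, rfl⟩, rfl⟩
      rw [min_eq_left hi.le]
      exact h2 i hi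
  constructor
  · rintro ⟨j, hj, hr, h⟩
    refine ⟨bitsOf x.length j, ?_, ?_⟩
    · rw [length_bitsOf, Polynomial.eval_X]
    · rw [key, valB_bitsOf _ _ hj]
      exact ⟨length_bitsOf _ _, hr, h⟩
  · rintro ⟨w, _, hw⟩
    rw [key] at hw
    obtain ⟨j, hj, h⟩ := exists_bitsOf w
    rw [hw.1] at hj h
    refine ⟨j, hj, ?_, fun i hi => ?_⟩
    · have := hw.2.1
      rw [← h, valB_bitsOf _ _ hj] at this
      exact this
    · unfold wit
      rw [h]
      exact hw.2.2 i hi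

/-- the inputs -/
def inpQ (n s L : ℕ) (k : Fin s × Fin L) : List Bool := bitsOf n (k.1.val * L + k.2.val)

theorem inpQ_lt {n s L : ℕ} (h : s * L ≤ 2 ^ n) (k : Fin s × Fin L) :
    k.1.val * L + k.2.val < 2 ^ n := by
  have h1 := k.1.2
  have h2 := k.2.2
  calc k.1.val * L + k.2.val < k.1.val * L + L := by omega
    _ = (k.1.val + 1) * L := by ring
    _ ≤ s * L := Nat.mul_le_mul_right L h1
    _ ≤ 2 ^ n := h

theorem inpQ_inj {n s L : ℕ} (h : s * L ≤ 2 ^ n) : Function.Injective (inpQ n s L) := by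
  intro k k' hk
  have h1 := bitsOf_inj (inpQ_lt h k) (inpQ_lt h k') hk
  have h2 := k.2.2
  have h2' := k'.2.2
  have h3 : k.1.val = k'.1.val := by
    have e1 : (k.1.val * L + k.2.val) / L = k.1.val := by
      rw [Nat.mul_comm, Nat.mul_add_div (by omega), Nat.div_eq_of_lt h2]; simp
    have e2 : (k'.1.val * L + k'.2.val) / L = k'.1.val := by
      rw [Nat.mul_comm, Nat.mul_add_div (by omega), Nat.div_eq_of_lt h2']; simp
    rw [← e1, ← e2, h1]
  have h4 : k.2.val = k'.2.val := by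
    rw [h3] at h1
    omega
  exact Prod.ext (Fin.ext h3) (Fin.ext h4)

theorem length_inpQ (n s L : ℕ) (k : Fin s × Fin L) : (inpQ n s L k).length = n :=
  length_bitsOf n _

theorem inpQ_surj {n s L : ℕ} (hL : 1 ≤ L) (h : s * L = 2 ^ n) {x : List Bool}
    (hx : x.length = n) : ∃ k, inpQ n s L k = x := by
  obtain ⟨j, hj, hjx⟩ := exists_bitsOf x
  rw [hx, ← h] at hj
  rw [hx] at hjx
  have h1 : j / L < s := by
    rw [Nat.div_lt_iff_lt_mul (by omega)]
    exact hj
  refine ⟨(⟨j / L, h1⟩, ⟨j % L, Nat.mod_lt _ (by omega)⟩), ?_⟩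
  unfold inpQ
  simp only
  rw [Nat.div_add_mod' j L, hjx]

/-- the witness sets of an input -/
noncomputable def WQ (n N s L k r : ℕ) (y : Fin s × Fin L) (j : Fin r × Fin (2 ^ (n - k))) :
    Finset (Fin N) := witF N (inpQ n s L y) (j.1.val + 2 ^ k * j.2.val)

theorem num_lt {n k r : ℕ} (hk : k ≤ n) (hr : r ≤ 2 ^ k) (j : Fin r × Fin (2 ^ (n - k))) :
    j.1.val + 2 ^ k * j.2.val < 2 ^ n := by
  have h1 := j.1.2
  have h2 := j.2.2
  have h3 : 2 ^ n = 2 ^ k * 2 ^ (n - k) := by rw [← pow_add]; congr 1; omega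
  calc j.1.val + 2 ^ k * j.2.val < 2 ^ k + 2 ^ k * j.2.val := by omega
    _ = 2 ^ k * (j.2.val + 1) := by ring
    _ ≤ 2 ^ k * 2 ^ (n - k) := Nat.mul_le_mul_left _ h2
    _ = 2 ^ n := h3.symm

theorem num_mod {n k r : ℕ} (hr : r ≤ 2 ^ k) (j : Fin r × Fin (2 ^ (n - k))) :
    (j.1.val + 2 ^ k * j.2.val) % 2 ^ k = j.1.val := by
  rw [Nat.add_mul_mod_self_left, Nat.mod_eq_of_lt (lt_of_lt_of_le j.1.2 hr)]

theorem num_inj {n k r : ℕ} (hr : r ≤ 2 ^ k) {j j' : Fin r × Fin (2 ^ (n - k))}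
    (h : j.1.val + 2 ^ k * j.2.val = j'.1.val + 2 ^ k * j'.2.val) : j = j' := by
  have h1 := congrArg (· % 2 ^ k) h
  simp only [num_mod hr] at h1
  rw [h1] at h
  have h2 : 2 ^ k * j.2.val = 2 ^ k * j'.2.val := by omega
  have h3 : j.2.val = j'.2.val := Nat.eq_of_mul_eq_mul_left (by positivity) h2
  exact Prod.ext (Fin.ext h1) (Fin.ext h3)

theorem hitQ_iff {n N s L k r : ℕ} (hk : k ≤ n) (hr : r ≤ 2 ^ k) (hN : 2 ^ (3 * n + 1) ≤ N + 1)
    (A : Oracle) (y : Fin s × Fin L) :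
    HitF (WQ n N s L k r y) (pre N A) ↔ inpQ n s L y ∈ balLang k r A := by
  unfold HitF balLang
  rw [Set.mem_ofPred_eq, length_inpQ]
  constructor
  · rintro ⟨j, hj⟩
    refine ⟨j.1.val + 2 ^ k * j.2.val, num_lt hk hr j, ?_, fun i hi => ?_⟩
    · rw [num_mod hr]
      exact j.1.2
    have hlt : idx (wit (inpQ n s L y) (j.1.val + 2 ^ k * j.2.val) i) < N := by
      have h1 := idx_lt (wit (inpQ n s L y) (j.1.val + 2 ^ k * j.2.val) i)
      rw [length_wit, length_inpQ] at h1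
      have h2 : 2 ^ (2 * n + i + 1) ≤ 2 ^ (3 * n + 1) :=
        Nat.pow_le_pow_right (by norm_num) (by omega)
      omega
    have h3 := hj ⟨idx (wit (inpQ n s L y) (j.1.val + 2 ^ k * j.2.val) i), hlt⟩ (by
      rw [WQ, witF, Finset.mem_filter]
      exact ⟨Finset.mem_univ _, i, by rw [length_inpQ]; exact hi, str_idx _⟩)
    unfold pre at h3
    simp only at h3
    rwa [str_idx] at h3
  · rintro ⟨j, hj, hjr, h⟩
    have h1 : j / 2 ^ k < 2 ^ (n - k) := by
      rw [Nat.div_lt_iff_lt_mul (by positivity), ← pow_add]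
      convert hj using 2
      omega
    refine ⟨(⟨j % 2 ^ k, hjr⟩, ⟨j / 2 ^ k, h1⟩), fun e he => ?_⟩
    rw [WQ, witF, Finset.mem_filter] at he
    simp only at he
    rw [Nat.mod_add_div] at he
    obtain ⟨_, i, hi, hei⟩ := he
    rw [length_inpQ] at hi
    unfold pre
    rw [hei]
    exact h i hi

theorem card_WQ {n N s L k r : ℕ} (hN : 2 ^ (3 * n + 1) ≤ N + 1)
    (y : Fin s × Fin L) (j : Fin r × Fin (2 ^ (n - k))) : (WQ n N s L k r y j).card = n := by
  rw [WQ, witF_card (by rw [length_inpQ]; exact hN), length_inpQ]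

theorem disj_WQ {n N s L k r : ℕ} (hk : k ≤ n) (hr : r ≤ 2 ^ k) (hs : s * L ≤ 2 ^ n)
    (y : Fin s × Fin L) (j : Fin r × Fin (2 ^ (n - k))) (y' : Fin s × Fin L)
    (j' : Fin r × Fin (2 ^ (n - k))) (hne : (y, j) ≠ (y', j')) :
    Disjoint (WQ n N s L k r y j) (WQ n N s L k r y' j') := by
  apply witF_disj
  · rw [length_inpQ, length_inpQ]
  · rw [length_inpQ]; exact num_lt hk hr j
  · rw [length_inpQ]; exact num_lt hk hr j'
  · intro he
    apply hne
    rw [Prod.mk.injEq] at he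
    rw [inpQ_inj hs he.1, num_inj hr he.2]

/-- the limit of the probability that there is no witness -/
theorem tendsto_nohit (k r : ℕ) : Tendsto (fun n : ℕ => (1 - (1 / 2 : ℝ) ^ n) ^ (r * 2 ^ (n - k)))
    atTop (𝓝 (Real.exp (-(r / 2 ^ k)))) := by
  have h1 : Tendsto (fun n : ℕ => (1 + (-1 : ℝ) / ((2 ^ n : ℕ) : ℝ)) ^ (2 ^ n)) atTop
      (𝓝 (Real.exp (-1))) :=
    (Real.tendsto_one_add_div_pow_exp (-1)).comp
      (tendsto_pow_atTop_atTop_of_one_lt (by norm_num : 1 < 2))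
  have h2 := h1.rpow_const (p := (r / 2 ^ k : ℝ)) (Or.inl (Real.exp_pos _).ne')
  have h3 : Real.exp (-1) ^ (r / 2 ^ k : ℝ) = Real.exp (-(r / 2 ^ k)) := by
    rw [← Real.exp_mul]
    congr 1
    ring
  rw [h3] at h2
  refine h2.congr' ?_
  filter_upwards [eventually_ge_atTop k] with n hn
  have h4 : (1 + (-1 : ℝ) / ((2 ^ n : ℕ) : ℝ)) = 1 - (1 / 2) ^ n := by
    push_cast
    rw [one_div, inv_pow]
    ring
  have h5 : (0 : ℝ) ≤ 1 - (1 / 2) ^ n := by
    have : ((1 : ℝ) / 2) ^ n ≤ 1 := pow_le_one₀ (by norm_num) (by norm_num)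
    linarith
  rw [h4, ← Real.rpow_natCast (1 - (1 / 2 : ℝ) ^ n) (2 ^ n), ← Real.rpow_mul h5,
    ← Real.rpow_natCast (1 - (1 / 2 : ℝ) ^ n) (r * 2 ^ (n - k))]
  congr 1
  push_cast
  have h6 : (2 : ℝ) ^ n = 2 ^ k * 2 ^ (n - k) := by rw [← pow_add]; congr 1; omega
  rw [h6]
  field_simp

/-- There are parameters for which the language is nearly balanced. -/
theorem exists_balanced {η : ℝ} (hη : 0 < η) : ∃ k r : ℕ, r ≤ 2 ^ k ∧ ∀ᶠ n : ℕ in atTop,
    max ((1 - (1 / 2 : ℝ) ^ n) ^ (r * 2 ^ (n - k))) (1 - (1 - (1 / 2) ^ n) ^ (r * 2 ^ (n - k))) ≤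
      1 / 2 + η := by
  obtain ⟨k, hk⟩ := exists_pow_lt_of_lt_one (half_pos hη) (by norm_num : (1 / 2 : ℝ) < 1)
  set r := ⌊Real.log 2 * 2 ^ k⌋₊ with hr
  have hlog0 : 0 < Real.log 2 := Real.log_pos (by norm_num)
  have hlog1 : Real.log 2 < 1 := by
    have := Real.log_two_lt_d9
    linarith
  have h2k : (0 : ℝ) < 2 ^ k := by positivity
  have h1 : (r : ℝ) ≤ Real.log 2 * 2 ^ k := Nat.floor_le (by positivity)
  have h2 : Real.log 2 * 2 ^ k < r + 1 := Nat.lt_floor_add_one _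
  have hrk : r ≤ 2 ^ k := by
    have h3 : (r : ℝ) ≤ 2 ^ k := by nlinarith
    exact_mod_cast h3
  refine ⟨k, r, hrk, ?_⟩
  have h3 : (r : ℝ) / 2 ^ k ≤ Real.log 2 := by
    rw [div_le_iff₀ h2k]
    exact h1
  have h4 : Real.log 2 - (1 / 2) ^ k < (r : ℝ) / 2 ^ k := by
    rw [lt_div_iff₀ h2k, sub_mul, ← mul_pow]
    norm_num
    linarith
  -- the limit
  have h5 : (1 / 2 : ℝ) ≤ Real.exp (-(r / 2 ^ k)) := by
    have : (1 / 2 : ℝ) = Real.exp (-Real.log 2) := by
      rw [Real.exp_neg, Real.exp_log (by norm_num), one_div]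
    rw [this]
    apply Real.exp_le_exp.2
    linarith
  have h6 : Real.exp (-(r / 2 ^ k)) ≤ 1 / 2 + η / 2 := by
    have h7 : Real.exp (-(r / 2 ^ k)) ≤ Real.exp ((1 / 2) ^ k) * (1 / 2) := by
      have : (1 / 2 : ℝ) = Real.exp (-Real.log 2) := by
        rw [Real.exp_neg, Real.exp_log (by norm_num), one_div]
      rw [this, ← Real.exp_add]
      apply Real.exp_le_exp.2
      rw [← this]
      linarith
    have h8 : ((1 : ℝ) / 2) ^ k ≤ 1 := pow_le_one₀ (by norm_num) (by norm_num)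
    have h80 : (0 : ℝ) ≤ ((1 : ℝ) / 2) ^ k := by positivity
    have h9 := Real.abs_exp_sub_one_le (x := ((1 : ℝ) / 2) ^ k) (by rw [abs_of_nonneg h80]; exact h8)
    rw [abs_of_nonneg h80] at h9
    have h10 := (abs_le.1 h9).2
    linarith
  have h7 := (tendsto_nohit k r).eventually (gt_mem_nhds (show Real.exp (-(r / 2 ^ k)) <
    1 / 2 + η by linarith))
  have h8 := (tendsto_nohit k r).eventually (lt_mem_nhds (show 1 / 2 - η <
    Real.exp (-(r / 2 ^ k)) by linarith))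
  filter_upwards [h7, h8] with n h9 h10
  refine max_le h9.le ?_
  linarith

end Pool.Agent.Helper11x.QG
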