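import Pool.Agent.Helper11x.QG.Wt

/-!
# One isolated search: smooth functions cannot do much better than guessing
-/

set_option autoImplicit false

namespace Pool.Agent.Helper11x.QG

open Pool.Agent.NPC Pool.Agent.H620R2.Gauge Pool.Agent.H620R2.Gauge.TV2 Finset H568R2
open Pool.Agent.H676

variable {I : Type} [Fintype I] [DecidableEq I]

/-- `P` is at least `hi` if there is a hit, and at most `lo` otherwise. -/
def RightAt {J : Type} (lo hi : ℝ) (W : J → Finset I) (P : (I → Bool) → ℝ) (a : I → Bool) : Prop :=
  (HitF W a → hi ≤ P a) ∧ (¬ HitF W a → P a ≤ lo)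

omit [Fintype I] [DecidableEq I] in
theorem Smooth.comp {I' : Type} {T : ℝ} {P : (I → Bool) → ℝ} (h : Smooth T P)
    (τ : (I' → Bool) → I → Bool) (s : I → I')
    (hτ : ∀ b b' e, τ b e ≠ τ b' e → b (s e) ≠ b' (s e)) : Smooth T (fun b => P (τ b)) := by
  intro ι _ w K a F hw hK hF
  refine h ι w K (τ a) (fun i => τ (F i)) hw hK fun e => ?_
  refine le_trans (sum_le_sum_of_subset_of_nonneg ?_ (fun i _ _ => hw i)) (hF (s e))
  intro i hi
  rw [mem_filter] at hi ⊢
  exact ⟨hi.1, hτ _ _ _ hi.2⟩

theorem Ex_comm {I J A B : Type} [Fintype I] [Fintype J] [Fintype A] [Fintype B] [DecidableEq I]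
    [DecidableEq J] (w : A → ℝ) (v : B → ℝ)
    (f : (I → A) → (J → B) → ℝ) :
    Ex w (fun ω => Ex v (fun c => f ω c)) = Ex v (fun c => Ex w (fun ω => f ω c)) := by
  unfold Ex
  simp only [mul_sum]
  rw [sum_comm]
  exact sum_congr rfl fun c _ => sum_congr rfl fun ω _ => by ring

/-- all bits in `Z` are true -/
noncomputable def allOn (Z : Finset I) (c : I → Bool) : ℝ := if ∀ i ∈ Z, c i = true then 1 else 0

theorem plant_update {Z : Finset I} {i : I} (hi : i ∈ Z) (c : I → Bool) (b : Bool) :
    plant Z (Function.update c i b) = plant Z c := by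
  funext e
  by_cases he : e ∈ Z
  · rw [plant_mem he, plant_mem he]
  · rw [plant_notMem he, plant_notMem he, Function.update_of_ne]
    rintro rfl
    exact he hi

theorem plant_eq {Z : Finset I} {c : I → Bool} (h : ∀ i ∈ Z, c i = true) : plant Z c = c := by
  funext e
  by_cases he : e ∈ Z
  · rw [plant_mem he, h e he]
  · rw [plant_notMem he]

theorem one_block {Z : Finset I} {n : ℕ} (hZ : Z.card = n) (G : (I → Bool) → ℝ) :
    (1 - (1 / 2) ^ n) * Ex unif (fun c => G c * (1 - allOn Z c)) +
      (1 / 2) ^ n * Ex unif (fun c => G (plant Z c) * (1 - allOn Z c)) =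
      (1 - (1 / 2) ^ n) * Ex unif G := by
  have hφ : ∀ i ∈ Z, ∀ (ω : I → Bool) (a : Bool),
      (fun c => G (plant Z c)) (Function.update ω i a) = (fun c => G (plant Z c)) ω := by
    intro i hi ω a
    simp only [plant_update hi]
  have hA := V4.ex_one Z (fun c => G (plant Z c)) hφ
  have hB := Ex_indep V4.unif_sum (fun b : Bool => b = true) Z (fun c => G (plant Z c)) hφ
  have h1 : ∑ a ∈ univ.filter (fun b : Bool => b = true), unif a = 1 / 2 := by
    have : univ.filter (fun b : Bool => b = true) = {true} := by decide
    rw [this, Finset.sum_singleton]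
    rfl
  rw [h1, hZ] at hB
  rw [hZ] at hA
  have hC : Ex unif (fun c => G c * (1 - allOn Z c)) = Ex unif G -
      Ex unif (fun c => G (plant Z c) * (if ∀ i ∈ Z, c i = true then (1 : ℝ) else 0)) := by
    have e : (fun c : I → Bool => G c * (1 - allOn Z c)) = fun c => G c +
        (-1) * (G (plant Z c) * (if ∀ i ∈ Z, c i = true then (1 : ℝ) else 0)) := by
      funext c
      unfold allOn
      by_cases h : ∀ i ∈ Z, c i = true
      · rw [if_pos h, plant_eq h]
        ring
      · rw [if_neg h]
        ring
    rw [e, Ex_add, Ex_smul]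
    ring
  have hA' : Ex unif (fun c => G (plant Z c) * (1 - allOn Z c)) =
      (1 - (1 / 2) ^ n) * Ex unif (fun c => G (plant Z c)) := hA
  rw [hC, hB, hA']
  ring

/-- the weights of a coin which shows `true` with probability `1 / 2 ^ n` -/
noncomputable def pw (n : ℕ) : Bool → ℝ := fun b => if b then (1 / 2) ^ n else 1 - (1 / 2) ^ n

theorem pw_sum (n : ℕ) : ∑ b, pw n b = 1 := by
  rw [Fintype.sum_bool]
  simp [pw]

theorem pw_nonneg (n : ℕ) (b : Bool) : 0 ≤ pw n b := by
  unfold pw
  have : ((1 : ℝ) / 2) ^ n ≤ 1 := pow_le_one₀ (by norm_num) (by norm_num)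
  split_ifs
  · positivity
  · linarith

open Classical in
/-- plant the witness sets with numbers `j ∈ S`, `ω j = true` -/
noncomputable def plantOn {J : Type} (W : J → Finset I) (S : Finset J) (ω : J → Bool)
    (c : I → Bool) : I → Bool :=
  fun i => if ∃ j ∈ S, ω j = true ∧ i ∈ W j then true else c i

omit [Fintype I] in
theorem plantOn_empty {J : Type} (W : J → Finset I) (ω : J → Bool) (c : I → Bool) :
    plantOn W ∅ ω c = c := by
  funext i
  simp [plantOn]

open Classical in
theorem all_blocks {J : Type} [Fintype J] (W : J → Finset I) {n : ℕ}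
    (hW : ∀ j, (W j).card = n) (hd : ∀ j j', j ≠ j' → Disjoint (W j) (W j')) (S : Finset J)
    (φ : (I → Bool) → ℝ) :
    Ex (pw n) (fun ω : J → Bool => Ex unif (fun c => φ (plantOn W S ω c) *
      ∏ j ∈ S, (1 - allOn (W j) c))) = (1 - (1 / 2) ^ n) ^ S.card * Ex unif φ := by
  induction S using Finset.induction_on with
  | empty =>
    simp only [plantOn_empty, prod_empty, mul_one, card_empty, pow_zero, one_mul]
    rw [Ex_const (pw_sum n)]
  | insert j S hj ih =>
    let G : (J → Bool) → (I → Bool) → ℝ := fun ω c => φ (plantOn W S ω c) *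
      ∏ j ∈ S, (1 - allOn (W j) c)
    have e1 : ∀ (ω : J → Bool) (c : I → Bool), φ (plantOn W (insert j S) ω c) *
        ∏ j ∈ insert j S, (1 - allOn (W j) c) =
        G ω (if ω j = true then plant (W j) c else c) * (1 - allOn (W j) c) := by
      intro ω c
      rw [prod_insert hj]
      simp only [G]
      have e2 : plantOn W (insert j S) ω c =
          plantOn W S ω (if ω j = true then plant (W j) c else c) := by
        funext i
        unfold plantOn
        by_cases h1 : ∃ j' ∈ S, ω j' = true ∧ i ∈ W j'
        · obtain ⟨j', hj', h⟩ := h1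
          rw [if_pos ⟨j', mem_insert_of_mem hj', h⟩, if_pos ⟨j', hj', h⟩]
        · rw [if_neg h1]
          by_cases h2 : ω j = true ∧ i ∈ W j
          · rw [if_pos ⟨j, mem_insert_self j S, h2⟩, if_pos h2.1, plant_mem h2.2]
          · rw [if_neg]
            · by_cases h3 : ω j = true
              · rw [if_pos h3, plant_notMem fun h => h2 ⟨h3, h⟩]
              · rw [if_neg h3]
            · rintro ⟨j', hj', h⟩
              rcases mem_insert.1 hj' with rfl | hj'
              · exact h2 h
              · exact h1 ⟨j', hj', h⟩
      have e3 : ∏ j' ∈ S, (1 - allOn (W j') (if ω j = true then plant (W j) c else c)) =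
          ∏ j' ∈ S, (1 - allOn (W j') c) := by
        refine prod_congr rfl fun j' hj' => ?_
        have hne : j' ≠ j := fun h => hj (h ▸ hj')
        have h4 : (∀ i ∈ W j', (if ω j = true then plant (W j) c else c) i = true) ↔
            ∀ i ∈ W j', c i = true := by
          refine forall₂_congr fun i hi => ?_
          by_cases h3 : ω j = true
          · rw [if_pos h3, plant_notMem (Finset.disjoint_left.1 (hd j' j hne) hi)]
          · rw [if_neg h3]
        unfold allOn
        simp only [h4]
      rw [e2, e3]
      ring
    simp only [e1]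
    have hG : ∀ (ω : J → Bool) (b : Bool), G (Function.update ω j b) = G ω := by
      intro ω b
      funext c
      simp only [G]
      have : plantOn W S (Function.update ω j b) c = plantOn W S ω c := by
        funext i
        unfold plantOn
        refine if_congr ?_ rfl rfl
        refine exists_congr fun j' => and_congr_right fun hj' => ?_
        rw [Function.update_of_ne]
        rintro rfl
        exact hj hj'
      rw [this]
    rw [Ex_resample (pw_sum n) _ j]
    have e4 : ∀ ω : J → Bool, ∑ b, pw n b * Ex unif (fun c => G (Function.update ω j b)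
        (if Function.update ω j b j = true then plant (W j) c else c) * (1 - allOn (W j) c)) =
        (1 - (1 / 2) ^ n) * Ex unif (G ω) := by
      intro ω
      rw [Fintype.sum_bool]
      simp only [hG, Function.update_self, if_true, Bool.false_eq_true, if_false]
      rw [← one_block (hW j) (G ω)]
      simp only [pw, if_true, Bool.false_eq_true, if_false]
      ring
    simp only [e4]
    rw [Ex_smul, ih, card_insert_of_notMem hj]
    ring

open Classical in
/-- **Single block.** A smooth function cannot recognize a hit much better than by guessing. -/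
theorem block_bound {J : Type} [Fintype J] {n : ℕ} {T : ℝ} (hn : 1 ≤ n) (hT : 0 ≤ T)
    (W : J → Finset I) (hW : ∀ j, (W j).card = n)
    (hd : ∀ j j', j ≠ j' → Disjoint (W j) (W j')) (P : (I → Bool) → ℝ) (hP : Smooth T P) :
    Ex unif (fun a : I → Bool => if RightAt (5 / 12) (7 / 12) W P a then (1 : ℝ) else 0) ≤
      max ((1 - (1 / 2 : ℝ) ^ n) ^ Fintype.card J) (1 - (1 - (1 / 2) ^ n) ^ Fintype.card J) +
        144 * T * (1 / 2) ^ n := by
  set p : ℝ := (1 / 2) ^ n with hp
  have hp0 : 0 < p := by positivity
  have hp1 : p < 1 := pow_lt_one₀ (by norm_num) (by norm_num) (by omega)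
  set ρ : ℝ := (1 - p) ^ Fintype.card J with hρ
  have hρ0 : 0 < ρ := pow_pos (by linarith) _
  set u : ℝ := max ρ (1 - ρ) + 144 * T * p with hu
  set R : (I → Bool) → ℝ := fun a => if RightAt (5 / 12) (7 / 12) W P a then (1 : ℝ) else 0 with hR
  have hkey := all_blocks W hW hd univ R
  rw [Finset.card_univ, ← hp, ← hρ] at hkey
  have hNH : ∀ c : I → Bool, ∏ j, (1 - allOn (W j) c) = if ¬ HitF W c then (1 : ℝ) else 0 := by
    intro c
    rw [V4.nohit_prod]
    rfl
  have hone := all_blocks W hW hd univ (fun _ => 1)
  simp only [one_mul] at hone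
  rw [Ex_const (pw_sum n), Ex_const V4.unif_sum, Finset.card_univ, mul_one, ← hp, ← hρ] at hone
  -- for a fixed point without a hit
  have hfix : ∀ c : I → Bool, ¬ HitF W c →
      Ex (pw n) (fun ω : J → Bool => R (plantOn W univ ω c)) ≤ u := by
    intro c hc
    have hE0 : Ex (pw n) (fun ω : J → Bool => if ∀ j ∈ (univ : Finset J), ω j = false then
        (1 : ℝ) else 0) = ρ := by
      have h := Ex_indep (pw_sum n) (fun b : Bool => b = false) (univ : Finset J)
        (fun _ => (1 : ℝ)) (fun _ _ _ _ => rfl)
      simp only [one_mul] at h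
      rw [h, Ex_const (pw_sum n), mul_one, Finset.card_univ]
      have : univ.filter (fun b : Bool => b = false) = {false} := by decide
      rw [this, Finset.sum_singleton]
      simp only [pw, Bool.false_eq_true, if_false]
      rfl
    have hdiff : Ex (pw n) (fun ω : J → Bool => (P (plantOn W univ ω c) - P c) ^ 2) ≤ T * p := by
      refine hP (J → Bool) (fun ω => ∏ j, pw n (ω j)) p c (fun ω => plantOn W univ ω c)
        (fun ω => prod_nonneg fun j _ => pw_nonneg n _) hp0.le ?_
      intro e
      by_cases he : ∃ j, e ∈ W j
      · obtain ⟨j, hj⟩ := he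
        have h := Ex_indep (pw_sum n) (fun b : Bool => b = true) ({j} : Finset J)
          (fun _ => (1 : ℝ)) (fun _ _ _ _ => rfl)
        simp only [one_mul] at h
        rw [Ex_const (pw_sum n), mul_one, Finset.card_singleton, pow_one] at h
        have h2 : univ.filter (fun b : Bool => b = true) = {true} := by decide
        rw [h2, Finset.sum_singleton] at h
        have h3 : pw n true = p := by simp only [pw, if_true]; rfl
        rw [h3] at h
        rw [← h]
        unfold Ex
        rw [sum_filter]
        refine sum_le_sum fun ω _ => ?_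
        by_cases h4 : ω j = true
        · have h5 : (if ∀ i ∈ ({j} : Finset J), ω i = true then (1 : ℝ) else 0) = 1 :=
            if_pos (by simpa using h4)
          simp only [h5, mul_one]
          split_ifs
          · exact le_rfl
          · exact prod_nonneg fun j _ => pw_nonneg n _
        · have h5 : (if ∀ i ∈ ({j} : Finset J), ω i = true then (1 : ℝ) else 0) = 0 :=
            if_neg (by simpa using h4)
          simp only [h5, mul_zero]
          rw [if_neg]
          rw [not_not]
          unfold plantOn
          rw [if_neg]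
          rintro ⟨j', _, h5, h6⟩
          by_cases h7 : j' = j
          · rw [h7] at h5
            exact h4 h5
          · exact (Finset.disjoint_left.1 (hd j' j h7)) h6 hj
      · rw [sum_eq_zero]
        · exact hp0.le
        · intro ω hω
          rw [mem_filter] at hω
          exfalso
          apply hω.2
          unfold plantOn
          rw [if_neg]
          rintro ⟨j', _, _, h6⟩
          exact he ⟨j', h6⟩
    -- the pointwise bound
    have hpt : ∀ ω : J → Bool, R (plantOn W univ ω c) ≤
        (if P c ≤ 1 / 2 then (if ∀ j ∈ (univ : Finset J), ω j = false then (1 : ℝ) else 0)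
          else 1 + (-1) * (if ∀ j ∈ (univ : Finset J), ω j = false then (1 : ℝ) else 0)) +
        144 * (P (plantOn W univ ω c) - P c) ^ 2 := by
      intro ω
      simp only [hR]
      have hsq : 0 ≤ (P (plantOn W univ ω c) - P c) ^ 2 := sq_nonneg _
      by_cases hr : RightAt (5 / 12) (7 / 12) W P (plantOn W univ ω c)
      · rw [if_pos hr]
        by_cases h0 : ∀ j ∈ (univ : Finset J), ω j = false
        · rw [if_pos h0]
          have h1 : plantOn W univ ω c = c := by
            funext i
            unfold plantOn
            rw [if_neg]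
            rintro ⟨j, hj, h2, _⟩
            rw [h0 j hj] at h2
            exact absurd h2 (by decide)
          rw [h1] at hr ⊢
          have h2 := hr.2 hc
          rw [if_pos (by linarith)]
          simp
        · rw [if_neg h0]
          have hhit : HitF W (plantOn W univ ω c) := by
            push Not at h0
            obtain ⟨j, hj, h1⟩ := h0
            refine ⟨j, fun i hi => ?_⟩
            unfold plantOn
            rw [if_pos ⟨j, hj, by simpa using h1, hi⟩]
          have h2 := hr.1 hhit
          split_ifs with h3
          · nlinarith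
          · linarith
      · rw [if_neg hr]
        split_ifs <;> linarith
    refine (Ex_mono (pw_nonneg n) hpt).trans ?_
    rw [Ex_add, Ex_smul]
    by_cases h3 : P c ≤ 1 / 2
    · simp only [if_pos h3]
      rw [hE0]
      have := le_max_left ρ (1 - ρ)
      linarith
    · simp only [if_neg h3]
      rw [Ex_add, Ex_const (pw_sum n), Ex_smul, hE0]
      have := le_max_right ρ (1 - ρ)
      linarith
  have h1 : ρ * Ex unif R ≤ u * ρ := by
    rw [← hkey, Ex_comm]
    have h2 : u * ρ = Ex unif (fun c : I → Bool => u * ∏ j, (1 - allOn (W j) c)) := by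
      rw [Ex_smul, hone]
    rw [h2]
    refine Ex_mono unif_nonneg fun c => ?_
    rw [hNH c]
    have e : (fun ω : J → Bool => R (plantOn W univ ω c) * (if ¬ HitF W c then (1 : ℝ) else 0)) =
        fun ω => (if ¬ HitF W c then (1 : ℝ) else 0) * R (plantOn W univ ω c) := by
      funext ω; ring
    rw [e, Ex_smul]
    by_cases hc : HitF W c
    · rw [if_neg (not_not.2 hc)]
      simp
    · rw [if_pos hc, one_mul, mul_one]
      exact hfix c hc
  have h2 : ρ * Ex unif R ≤ ρ * u := by linarith
  exact le_of_mul_le_mul_left h2 hρ0

end Pool.Agent.Helper11x.QG
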