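import Pool.Agent.H9x.Q.Defs

/-!
# Polynomial-size quantum circuits which are correct on a fraction of the inputs
-/

set_option autoImplicit false

namespace Pool.Agent.Helper11x.QG

open Pool.Agent.NPC Pool.Agent.H620R2.Gauge Pool.Agent.H9x.Q Filter

/-- The probability that the circuit of the family `F` for the inputs of length `|x|` accepts,
relative to the oracle `A`, when it is started with the input `x` in the first qubits, the advice
`h` in the next ones, and zeros in the others. -/
noncomputable def accAdv (F : QFamily) (A : Oracle) (x h : List Bool) : ℝ :=
  prob A (F.circ x.length) (x.length + h.length + 1 + F.anc.eval x.length) (x ++ h)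

/-- The circuit with the advice `h` decides with bounded error whether `x` is in `L`. -/
def Correct (F : QFamily) (A : Oracle) (L : Set (List Bool)) (x h : List Bool) : Prop :=
  (x ∈ L → 2 / 3 ≤ accAdv F A x h) ∧ (x ∉ L → accAdv F A x h ≤ 1 / 3)

/-- The language `L` is decided, relative to `A`, by a polynomial-time uniform family of quantum
circuits with polynomial advice (nonuniform polynomial-size quantum circuits) on at least the
fraction `γ` of the inputs of length `n`, for all large `n`. Nothing is required for the other
inputs. -/
def QHeur (γ : ℝ) (A : Oracle) (L : Set (List Bool)) : Prop :=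
  ∃ (F : QFamily) (p : Polynomial ℕ) (h : ℕ → List Bool), (∀ n, (h n).length ≤ p.eval n) ∧
    ∀ᶠ n : ℕ in atTop,
      γ * 2 ^ n ≤ ({x : List Bool | x.length = n ∧ Correct F A L x (h n)}.ncard : ℝ)

end Pool.Agent.Helper11x.QG
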