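import Pool.Agent.Helper11x.QG.Blk

/-!
# The direct product bound

Many isolated searches; a smooth function for each of them. The probability that much more than
one half of the searches is solved is exponentially small.
-/

set_option autoImplicit false

namespace Pool.Agent.Helper11x.QG

open Pool.Agent.NPC Pool.Agent.H620R2.Gauge Pool.Agent.H620R2.Gauge.TV2 Finset H568R2
open Pool.Agent.H676

variable {I : Type} [Fintype I] [DecidableEq I]

omit [Fintype I] in
theorem mix_of_mem {B : Finset I} {b a : I → Bool} {i : I} (h : i ∈ B) : mix B b a i = b i := by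
  simp [mix, h]

omit [Fintype I] in
theorem mix_of_notMem {B : Finset I} {b a : I → Bool} {i : I} (h : i ∉ B) : mix B b a i = a i := by
  simp [mix, h]

open Classical in
/-- the positions which are in some of the blocks other than the block `k` -/
noncomputable def others {κ J : Type} (W : κ → J → Finset I) (k : κ) : Finset I :=
  univ.filter (fun e => ∃ k', k' ≠ k ∧ ∃ j, e ∈ W k' j)

omit [DecidableEq I] in
theorem mem_others {κ J : Type} (W : κ → J → Finset I) (k : κ) (e : I) :
    e ∈ others W k ↔ ∃ k', k' ≠ k ∧ ∃ j, e ∈ W k' j := by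
  classical
  simp only [others, Finset.mem_filter, Finset.mem_univ, true_and]

/-- erase the other blocks -/
noncomputable def erase {κ J : Type} (W : κ → J → Finset I) (k : κ) (a : I → Bool) : I → Bool :=
  mix (others W k) (fun _ => false) a

open Classical in
theorem q_selection {κ J : Type} [Fintype κ] [Fintype J] {n : ℕ} {T u x : ℝ} (hn : 1 ≤ n)
    (hT : 0 ≤ T) (hx : 1 ≤ x)
    (hu : max ((1 - (1 / 2 : ℝ) ^ n) ^ Fintype.card J) (1 - (1 - (1 / 2) ^ n) ^ Fintype.card J) +
      144 * T * (1 / 2) ^ n ≤ u) (W : κ → J → Finset I)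
    (hW : ∀ k j, (W k j).card = n)
    (hd : ∀ k j k' j', (k, j) ≠ (k', j') → Disjoint (W k j) (W k' j'))
    (P : κ → (I → Bool) → ℝ) (hP : ∀ k, Smooth T (P k)) :
    Ex unif (fun a : I → Bool => x ^ (univ.filter (fun k =>
      RightAt (5 / 12) (7 / 12) (W k) (P k) (erase W k a))).card) ≤
      (1 + u * (x - 1)) ^ Fintype.card κ := by
  let φ : κ → (I → Bool) → ℝ := fun k a =>
    if RightAt (5 / 12) (7 / 12) (W k) (P k) (erase W k a) then x else 1
  let B : κ → Finset I := fun k => univ.biUnion (fun j => W k j)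
  have hB : ∀ k i, i ∈ B k ↔ ∃ j, i ∈ W k j := by
    intro k i
    simp [B]
  have hpt : (fun a : I → Bool => x ^ (univ.filter (fun k =>
      RightAt (5 / 12) (7 / 12) (W k) (P k) (erase W k a))).card) =
      fun a => ∏ k ∈ (univ : Finset κ), φ k a := by
    funext a
    simp only [φ]
    rw [Finset.prod_ite, Finset.prod_const, Finset.prod_const_one, mul_one]
  rw [hpt]
  refine (prod_block univ B φ (fun _ => 1 + u * (x - 1)) (fun k _ a => ?_) ?_ ?_).trans
    (by rw [Finset.prod_const, Finset.card_univ])
  · simp only [φ]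
    split_ifs <;> linarith
  · intro k _ k' _ hkk a b
    have h1 : erase W k (mix (B k') b a) = erase W k a := by
      funext e
      unfold erase
      by_cases he : e ∈ others W k
      · rw [mix_of_mem he, mix_of_mem he]
      · rw [mix_of_notMem he, mix_of_notMem he, mix_of_notMem]
        intro he'
        obtain ⟨j, hj⟩ := (hB k' e).1 he'
        exact he ((mem_others W k e).2 ⟨k', Ne.symm hkk, j, hj⟩)
    simp only [φ, h1]
  · intro k _ a
    have hno : ∀ j, ∀ e ∈ W k j, e ∉ others W k := by
      intro j e he he'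
      obtain ⟨k', hk', j', hj'⟩ := (mem_others W k e).1 he'
      exact (Finset.disjoint_left.1 (hd k j k' j' (fun h => hk' (Prod.ext_iff.1 h).1.symm))) he hj'
    have h1 : ∀ b, HitF (W k) (erase W k (mix (B k) b a)) ↔ HitF (W k) b := by
      intro b
      refine hitF_congr _ _ _ fun j e he => ?_
      unfold erase
      rw [mix_of_notMem (hno j e he), mix_of_mem ((hB k e).2 ⟨j, he⟩)]
    have hs := block_bound hn hT (W k) (hW k)
      (fun j j' hjj => hd k j k j' (fun h => hjj (Prod.ext_iff.1 h).2))
      (fun b => P k (erase W k (mix (B k) b a))) ((hP k).comp _ id (by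
        intro b b' e he hbb
        apply he
        unfold erase
        by_cases h1 : e ∈ others W k
        · rw [mix_of_mem h1, mix_of_mem h1]
        · rw [mix_of_notMem h1, mix_of_notMem h1]
          by_cases h2 : e ∈ B k
          · rw [mix_of_mem h2, mix_of_mem h2]
            exact hbb
          · rw [mix_of_notMem h2, mix_of_notMem h2]))
    have hs' := hs.trans hu
    have e : ∀ b, φ k (mix (B k) b a) = 1 + (x - 1) * (if RightAt (5 / 12) (7 / 12) (W k)
        (fun b => P k (erase W k (mix (B k) b a))) b then (1 : ℝ) else 0) := by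
      intro b
      have h2 : RightAt (5 / 12) (7 / 12) (W k) (P k) (erase W k (mix (B k) b a)) ↔
          RightAt (5 / 12) (7 / 12) (W k) (fun b => P k (erase W k (mix (B k) b a))) b := by
        unfold RightAt
        rw [h1]
      simp only [φ]
      by_cases h3 : RightAt (5 / 12) (7 / 12) (W k) (P k) (erase W k (mix (B k) b a))
      · rw [if_pos h3, if_pos (h2.1 h3)]
        ring
      · rw [if_neg h3, if_neg (fun h => h3 (h2.2 h))]
        ring
    rw [funext e, Ex_add, Ex_const V4.unif_sum, Ex_smul]
    nlinarith [mul_le_mul_of_nonneg_left hs' (by linarith : (0 : ℝ) ≤ x - 1)]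

/-- shift all choices except the one at `i` -/
def sh {s L : ℕ} [NeZero L] (i : Fin s) (t : Fin L) (c : Fin s → Fin L) : Fin s → Fin L :=
  fun i' => if i' = i then c i' else c i' + t

theorem sh_sh {s L : ℕ} [NeZero L] (i : Fin s) (t t' : Fin L) (c : Fin s → Fin L) :
    sh i t (sh i t' c) = sh i (t' + t) c := by
  funext i'
  unfold sh
  by_cases h : i' = i
  · simp [h]
  · simp [h, add_assoc]

theorem sh_zero {s L : ℕ} [NeZero L] (i : Fin s) (c : Fin s → Fin L) : sh i 0 c = c := by
  funext i'
  unfold sh
  simp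

/-- the shift as a bijection -/
def shE {s L : ℕ} [NeZero L] (i : Fin s) (t : Fin L) : (Fin s → Fin L) ≃ (Fin s → Fin L) where
  toFun := sh i t
  invFun := sh i (-t)
  left_inv c := by rw [sh_sh, add_neg_cancel, sh_zero]
  right_inv c := by rw [sh_sh, neg_add_cancel, sh_zero]

/-- the value changes when the other selected blocks are erased -/
def Bad {s L : ℕ} {J : Type} (W : Fin s × Fin L → J → Finset I)
    (P : Fin s × Fin L → (I → Bool) → ℝ) (a : I → Bool) (i : Fin s) (c : Fin s → Fin L) : Prop :=
  1 / 12 < |P (i, c i) (erase (fun i' => W (i', c i')) i a) - P (i, c i) a|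

open Classical in
theorem bad_shifts {s L : ℕ} [NeZero L] {J : Type} {T : ℝ} (W : Fin s × Fin L → J → Finset I)
    (hd : ∀ k j k' j', (k, j) ≠ (k', j') → Disjoint (W k j) (W k' j'))
    (P : Fin s × Fin L → (I → Bool) → ℝ) (hP : ∀ k, Smooth T (P k)) (a : I → Bool) (i : Fin s)
    (c : Fin s → Fin L) :
    ((univ.filter (fun t : Fin L => Bad W P a i (sh i t c))).card : ℝ) ≤ 144 * T := by
  have hi : ∀ t : Fin L, sh i t c i = c i := by
    intro t
    unfold sh
    simp
  have h := hP (i, c i) (Fin L) (fun _ => 1) 1 a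
    (fun t => erase (fun i' => W (i', sh i t c i')) i a) (fun _ => zero_le_one) zero_le_one (by
    intro e
    rw [Finset.sum_const, nsmul_eq_mul, mul_one]
    norm_cast
    rw [Finset.card_le_one]
    have key : ∀ t, erase (fun i' => W (i', sh i t c i')) i a e ≠ a e →
        ∃ i', i' ≠ i ∧ ∃ j, e ∈ W (i', c i' + t) j := by
      intro t ht
      have h1 : e ∈ others (fun i' => W (i', sh i t c i')) i := by
        by_contra hcon
        apply ht
        unfold erase
        rw [mix_of_notMem hcon]
      obtain ⟨i', hi', j, hj⟩ := (mem_others _ _ _).1 h1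
      refine ⟨i', hi', j, ?_⟩
      have h2 : sh i t c i' = c i' + t := by
        unfold sh
        simp [hi']
      rw [← h2]
      exact hj
    intro t ht t' ht'
    obtain ⟨i', _, j, hj⟩ := key t (Finset.mem_filter.1 ht).2
    obtain ⟨i'', _, j', hj'⟩ := key t' (Finset.mem_filter.1 ht').2
    by_contra hne
    have h3 : ((i', c i' + t), j) ≠ ((i'', c i'' + t'), j') := by
      intro h
      simp only [Prod.mk.injEq] at h
      obtain ⟨⟨h4, h5⟩, -⟩ := h
      subst h4
      exact hne (add_left_cancel h5)
    exact (Finset.disjoint_left.1 (hd _ _ _ _ h3)) hj hj')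
  rw [mul_one] at h
  simp only [one_mul] at h
  have h2 : ((univ.filter (fun t : Fin L => Bad W P a i (sh i t c))).card : ℝ) * (1 / 144) ≤ T := by
    refine le_trans ?_ h
    rw [← nsmul_eq_mul, ← Finset.sum_const]
    refine le_trans (Finset.sum_le_sum (g := fun t : Fin L =>
      (P (i, c i) (erase (fun i' => W (i', sh i t c i')) i a) - P (i, c i) a) ^ 2) ?_)
      (Finset.sum_le_sum_of_subset_of_nonneg (Finset.subset_univ _)
        (fun _ _ _ => sq_nonneg _))
    intro t ht
    have h3 : Bad W P a i (sh i t c) := (Finset.mem_filter.1 ht).2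
    unfold Bad at h3
    rw [hi t] at h3
    have h4 := pow_le_pow_left₀ (by norm_num) h3.le 2
    rw [sq_abs] at h4
    linarith
  linarith

open Classical in
theorem bad_count {s L : ℕ} [NeZero L] {J : Type} {T β : ℝ} (W : Fin s × Fin L → J → Finset I)
    (hd : ∀ k j k' j', (k, j) ≠ (k', j') → Disjoint (W k j) (W k' j'))
    (P : Fin s × Fin L → (I → Bool) → ℝ) (hP : ∀ k, Smooth T (P k)) (hT : 144 * T ≤ β * L)
    (a : I → Bool) (i : Fin s) :
    ((univ.filter (fun c : Fin s → Fin L => Bad W P a i c)).card : ℝ) ≤ β * (L : ℝ) ^ s := by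
  have hL : (0 : ℝ) < L := by exact_mod_cast Nat.pos_of_ne_zero (NeZero.ne L)
  set X := (univ.filter (fun c : Fin s → Fin L => Bad W P a i c)).card with hX
  have h1 : ∀ t : Fin L, ∑ c : Fin s → Fin L, (if Bad W P a i (sh i t c) then (1 : ℝ) else 0) =
      X := by
    intro t
    have h2 := Equiv.sum_comp (shE i t) (fun c => if Bad W P a i c then (1 : ℝ) else 0)
    have h3 : ∑ c : Fin s → Fin L, (if Bad W P a i c then (1 : ℝ) else 0) = X := by
      rw [hX, Finset.sum_boole]
    rw [← h3, ← h2]
    rfl
  have h4 : (L : ℝ) * X ≤ (L : ℝ) ^ s * (144 * T) := by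
    calc (L : ℝ) * X = ∑ t : Fin L, ∑ c : Fin s → Fin L,
          (if Bad W P a i (sh i t c) then (1 : ℝ) else 0) := by
          rw [Finset.sum_congr rfl fun t _ => h1 t, Finset.sum_const, Finset.card_univ,
            Fintype.card_fin, nsmul_eq_mul]
      _ = ∑ c : Fin s → Fin L, ∑ t : Fin L,
          (if Bad W P a i (sh i t c) then (1 : ℝ) else 0) := Finset.sum_comm
      _ ≤ ∑ _c : Fin s → Fin L, 144 * T := by
          refine Finset.sum_le_sum fun c _ => ?_
          rw [Finset.sum_boole]
          exact bad_shifts W hd P hP a i c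
      _ = (L : ℝ) ^ s * (144 * T) := by
          rw [Finset.sum_const, Finset.card_univ, Fintype.card_fun, Fintype.card_fin,
            Fintype.card_fin, nsmul_eq_mul]
          push_cast
          ring
  have h5 : (L : ℝ) * X ≤ L * (β * (L : ℝ) ^ s) := by
    have h6 : (0 : ℝ) ≤ (L : ℝ) ^ s := by positivity
    nlinarith [mul_le_mul_of_nonneg_left hT h6]
  exact le_of_mul_le_mul_left h5 hL

/-- the tangent of the exponential function -/
theorem tangent_exp (t : ℝ) (g : ℕ) (z : ℝ) :
    Real.exp (t * z) * (1 + t * (g - z)) ≤ Real.exp t ^ g := by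
  have h1 : Real.exp t ^ g = Real.exp (t * z) * Real.exp (t * (g - z)) := by
    rw [← Real.exp_nat_mul, ← Real.exp_add]
    congr 1
    ring
  rw [h1]
  apply mul_le_mul_of_nonneg_left _ (Real.exp_nonneg _)
  have := Real.add_one_le_exp (t * (g - z))
  linarith

theorem exp_le_quad {t : ℝ} (h0 : 0 ≤ t) (h1 : t ≤ 1) : Real.exp t ≤ 1 + t + t ^ 2 := by
  have h := Real.abs_exp_sub_one_sub_id_le (x := t) (by rw [abs_of_nonneg h0]; exact h1)
  have := (abs_le.1 h).2
  linarith

open Classical in
/-- **The direct product bound.** The probability that at least the fraction `γ` of the `s * L`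
isolated searches is solved by functions which are smooth is exponentially small in `s`. -/
theorem dp_bound {J : Type} [Fintype J] {n s L : ℕ} {T u β d γ : ℝ} (hn : 1 ≤ n) (hT : 0 ≤ T)
    (hu : max ((1 - (1 / 2 : ℝ) ^ n) ^ Fintype.card J) (1 - (1 - (1 / 2) ^ n) ^ Fintype.card J) +
      144 * T * (1 / 2) ^ n ≤ u) (hu1 : u ≤ 1) (hL : 1 ≤ L) (hTL : 144 * T ≤ β * L)
    (hd0 : 0 ≤ d) (hd1 : d ≤ 1) (hγ : u + β + d ≤ γ)
    (W : Fin s × Fin L → J → Finset I) (hW : ∀ k j, (W k j).card = n)
    (hd : ∀ k j k' j', (k, j) ≠ (k', j') → Disjoint (W k j) (W k' j'))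
    (P : Fin s × Fin L → (I → Bool) → ℝ) (hP : ∀ k, Smooth T (P k)) :
    Ex unif (fun a : I → Bool =>
      if γ * (s * L) ≤ ((univ.filter (fun k => RightAt (1 / 3) (2 / 3) (W k) (P k) a)).card : ℝ)
        then (1 : ℝ) else 0) ≤ Real.exp (-(d ^ 2 / 4 * s)) := by
  haveI : NeZero L := ⟨by omega⟩
  have hL0 : (0 : ℝ) < L := by exact_mod_cast hL
  set t : ℝ := d / 2 with ht
  have ht0 : 0 ≤ t := by linarith
  have ht1 : t ≤ 1 := by linarith
  set x : ℝ := Real.exp t with hx
  have hx1 : 1 ≤ x := Real.one_le_exp ht0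
  set g : (Fin s → Fin L) → (I → Bool) → ℕ := fun c a =>
    (univ.filter (fun i => RightAt (5 / 12) (7 / 12) (W (i, c i)) (P (i, c i))
      (erase (fun i' => W (i', c i')) i a))).card with hg
  set K : (I → Bool) → Finset (Fin s × Fin L) := fun a =>
    univ.filter (fun k => RightAt (1 / 3) (2 / 3) (W k) (P k) a) with hK
  set E : (I → Bool) → ℝ := fun a =>
    if γ * (s * L) ≤ ((K a).card : ℝ) then (1 : ℝ) else 0 with hE
  have hN : (Fintype.card (Fin s → Fin L) : ℝ) = (L:ℝ) ^ s := by
    rw [Fintype.card_fun, Fintype.card_fin, Fintype.card_fin]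
    push_cast
    rfl
  have hsel : ∀ c : Fin s → Fin L, Ex unif (fun a => x ^ g c a) ≤ (1 + u * (x - 1)) ^ s := by
    intro c
    have h := q_selection (I := I) hn hT hx1 hu (fun i => W (i, c i)) (fun k j => hW (k, c k) j)
      (fun k j k' j' hne => hd (k, c k) j (k', c k') j' (fun h => hne (by
        simp only [Prod.mk.injEq] at h ⊢
        exact ⟨h.1.1, h.2⟩)))
      (fun i => P (i, c i)) (fun i => hP _)
    rw [Fintype.card_fin] at h
    exact h
  have hpt : ∀ a, Real.exp (t * ((γ - β) * s)) * (L:ℝ) ^ s * E a ≤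
      ∑ c : Fin s → Fin L, x ^ g c a := by
    intro a
    by_cases h : γ * (s * L) ≤ ((K a).card : ℝ)
    · have hE1 : E a = 1 := by simp only [hE]; rw [if_pos h]
      rw [hE1, mul_one]
      -- the solved ones which are not bad are approximately right
      have h1 : ∀ c : Fin s → Fin L,
          ∑ i : Fin s, (if (i, c i) ∈ K a then (1 : ℝ) else 0) ≤ g c a +
          ∑ i : Fin s, (if Bad W P a i c then (1 : ℝ) else 0) := by
        intro c
        have h2 : ∀ i : Fin s, (if (i, c i) ∈ K a then (1 : ℝ) else 0) ≤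
            (if RightAt (5 / 12) (7 / 12) (W (i, c i)) (P (i, c i))
            (erase (fun i' => W (i', c i')) i a) then (1 : ℝ) else 0) +
            (if Bad W P a i c then (1 : ℝ) else 0) := by
          intro i
          by_cases hk : (i, c i) ∈ K a
          swap
          · rw [if_neg hk]
            split_ifs <;> norm_num
          rw [if_pos hk]
          have hr : RightAt (1 / 3) (2 / 3) (W (i, c i)) (P (i, c i)) a := (mem_filter.1 hk).2
          by_cases hb : Bad W P a i c
          · rw [if_pos hb]
            split_ifs <;> norm_num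
          · rw [if_neg hb, if_pos, add_zero]
            unfold Bad at hb
            rw [not_lt, abs_le] at hb
            have hhit : HitF (W (i, c i)) (erase (fun i' => W (i', c i')) i a) ↔
                HitF (W (i, c i)) a := by
              refine hitF_congr _ _ _ fun j e he => ?_
              unfold erase
              rw [mix_of_notMem]
              intro he'
              obtain ⟨i', hi', j', hj'⟩ := (mem_others _ _ _).1 he'
              exact (Finset.disjoint_left.1 (hd (i, c i) j (i', c i') j' (fun h => hi' (by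
                simp only [Prod.mk.injEq] at h
                exact h.1.1.symm)))) he hj'
            refine ⟨fun hh => ?_, fun hh => ?_⟩
            · have h3 := hr.1 (hhit.1 hh)
              linarith [hb.1]
            · have h3 := hr.2 (fun hh' => hh (hhit.2 hh'))
              linarith [hb.2]
        have h3 := Finset.sum_le_sum (fun i (_ : i ∈ (univ : Finset (Fin s))) => h2 i)
        rw [Finset.sum_add_distrib] at h3
        refine h3.trans (le_of_eq ?_)
        rw [Finset.sum_boole]
      have h4 : ∑ c : Fin s → Fin L, ∑ i : Fin s, (if Bad W P a i c then (1 : ℝ) else 0) ≤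
          β * s * (L : ℝ) ^ s := by
        rw [Finset.sum_comm]
        have h5 : ∀ i : Fin s, ∑ c : Fin s → Fin L, (if Bad W P a i c then (1 : ℝ) else 0) ≤
            β * (L : ℝ) ^ s := by
          intro i
          rw [Finset.sum_boole]
          exact bad_count W hd P hP hTL a i
        refine (Finset.sum_le_sum fun i _ => h5 i).trans ?_
        rw [Finset.sum_const, Finset.card_univ, Fintype.card_fin, nsmul_eq_mul]
        apply le_of_eq
        ring
      have h5 : (L : ℝ) * ∑ c : Fin s → Fin L, ∑ i : Fin s,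
          (if (i, c i) ∈ K a then (1 : ℝ) else 0) = ((K a).card : ℝ) * (L : ℝ) ^ s := by
        rw [Finset.sum_comm]
        have h6 : ∀ i : Fin s, (L : ℝ) * ∑ c : Fin s → Fin L,
            (if (i, c i) ∈ K a then (1 : ℝ) else 0) =
            (L : ℝ) ^ s * ∑ r : Fin L, (if (i, r) ∈ K a then (1 : ℝ) else 0) := by
          intro i
          have h7 : ∀ c : Fin s → Fin L, (if (i, c i) ∈ K a then (1 : ℝ) else 0) =
              ∑ r : Fin L, (if c i = r then (1 : ℝ) else 0) *
                (if (i, r) ∈ K a then (1 : ℝ) else 0) := by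
            intro c
            rw [Finset.sum_eq_single (c i)]
            · simp
            · intro r _ hr
              rw [if_neg (Ne.symm hr), zero_mul]
            · simp
          rw [Finset.sum_congr rfl fun c _ => h7 c, Finset.sum_comm, Finset.mul_sum,
            Finset.mul_sum]
          refine Finset.sum_congr rfl fun r _ => ?_
          rw [← Finset.sum_mul, Finset.sum_boole, ← mul_assoc]
          congr 1
          have h8 : (univ.filter (fun c : Fin s → Fin L => c i = r)).card * L = L ^ s := by
            have hc := Fintype.card_filter_piFinset_const_eq_of_mem (univ : Finset (Fin L)) i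
              (Finset.mem_univ r)
            simp only [Fintype.piFinset_univ, Finset.card_univ, Fintype.card_fin] at hc
            rw [hc, ← pow_succ]
            congr 1
            have := i.2
            omega
          have h9 : ((univ.filter (fun c : Fin s → Fin L => c i = r)).card : ℝ) * L =
              (L : ℝ) ^ s := by exact_mod_cast h8
          linarith
        rw [Finset.mul_sum, Finset.sum_congr rfl fun i _ => h6 i, ← Finset.mul_sum,
          ← Fintype.sum_prod_type (fun k : Fin s × Fin L => if k ∈ K a then (1 : ℝ) else 0),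
          Finset.sum_boole, mul_comm]
        congr 2
        simp
      have h6 : (γ - β) * s * (L:ℝ) ^ s ≤ ∑ c : Fin s → Fin L, (g c a : ℝ) := by
        have h7 := Finset.sum_le_sum (fun c (_ : c ∈ (univ : Finset (Fin s → Fin L))) => h1 c)
        rw [Finset.sum_add_distrib] at h7
        have h8 : γ * s * (L : ℝ) ^ s ≤ ∑ c : Fin s → Fin L, ∑ i : Fin s,
          (if (i, c i) ∈ K a then (1 : ℝ) else 0) := by
          have hLs : (0 : ℝ) ≤ (L : ℝ) ^ s := by positivity
          have h9 : (L : ℝ) * (γ * s * (L : ℝ) ^ s) ≤ L * ∑ c : Fin s → Fin L, ∑ i : Fin s,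
            (if (i, c i) ∈ K a then (1 : ℝ) else 0) := by
            rw [h5]
            nlinarith [mul_le_mul_of_nonneg_right h hLs]
          exact le_of_mul_le_mul_left h9 hL0
        linarith
      have h9 : ∀ c, Real.exp (t * ((γ - β) * s)) * (1 + t * ((g c a : ℝ) - (γ - β) * s)) ≤
          x ^ g c a := fun c => tangent_exp _ _ _
      refine le_trans ?_ (Finset.sum_le_sum fun c _ => h9 c)
      rw [← Finset.mul_sum, Finset.sum_add_distrib, Finset.sum_const, nsmul_eq_mul,
        Finset.card_univ, hN, ← Finset.mul_sum, Finset.sum_sub_distrib, Finset.sum_const,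
        nsmul_eq_mul, Finset.card_univ, hN]
      apply mul_le_mul_of_nonneg_left _ (Real.exp_nonneg _)
      have : 0 ≤ t * (∑ c : Fin s → Fin L, (g c a : ℝ) - (L : ℝ) ^ s * ((γ - β) * s)) := by
        apply mul_nonneg ht0
        linarith
      linarith
    · have hE0 : E a = 0 := by simp only [hE]; rw [if_neg h]
      rw [hE0, mul_zero]
      exact Finset.sum_nonneg fun c _ => by positivity
  have h1 : Ex unif (fun a => Real.exp (t * ((γ - β) * s)) * (L:ℝ) ^ s * E a) ≤
      Ex unif (fun a => ∑ c : Fin s → Fin L, x ^ g c a) := Ex_mono unif_nonneg hpt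
  rw [Ex_smul, Ex_sum] at h1
  have h2 : ∑ c : Fin s → Fin L, Ex unif (fun a => x ^ g c a) ≤
      (L:ℝ) ^ s * (1 + u * (x - 1)) ^ s := by
    calc ∑ c : Fin s → Fin L, Ex unif (fun a => x ^ g c a) ≤
          ∑ _c : Fin s → Fin L, (1 + u * (x - 1)) ^ s := Finset.sum_le_sum fun c _ => hsel c
      _ = (L:ℝ) ^ s * (1 + u * (x - 1)) ^ s := by
        rw [Finset.sum_const, nsmul_eq_mul, Finset.card_univ, hN]
  have h3 := h1.trans h2
  have hLs : (0:ℝ) < (L:ℝ) ^ s := by positivity
  have h4 : Real.exp (t * ((γ - β) * s)) * Ex unif E ≤ (1 + u * (x - 1)) ^ s := by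
    have h5 : (L:ℝ) ^ s * (Real.exp (t * ((γ - β) * s)) * Ex unif E) ≤
        (L:ℝ) ^ s * (1 + u * (x - 1)) ^ s := by
      calc _ = Real.exp (t * ((γ - β) * s)) * (L:ℝ) ^ s * Ex unif E := by ring
        _ ≤ _ := h3
    exact le_of_mul_le_mul_left h5 hLs
  have hu0 : 0 ≤ u := by
    refine le_trans ?_ hu
    have h6 : (0 : ℝ) ≤ 1 - (1 / 2 : ℝ) ^ n := by
      have : ((1 : ℝ) / 2) ^ n ≤ 1 := pow_le_one₀ (by norm_num) (by norm_num)
      linarith
    have h7 : (0 : ℝ) ≤ (1 - (1 / 2 : ℝ) ^ n) ^ Fintype.card J := pow_nonneg h6 _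
    have h8 := le_max_left ((1 - (1 / 2 : ℝ) ^ n) ^ Fintype.card J)
      (1 - (1 - (1 / 2) ^ n) ^ Fintype.card J)
    have h9 : 0 ≤ 144 * T * (1 / 2 : ℝ) ^ n := by positivity
    linarith
  have h5 : (1 + u * (x - 1)) ^ s ≤ Real.exp (t * ((γ - β) * s)) * Real.exp (-(d ^ 2 / 4 * s)) := by
    have hx2 : x - 1 ≤ t + t ^ 2 := by
      have := exp_le_quad ht0 ht1
      linarith
    have h6 : 1 + u * (x - 1) ≤ Real.exp (u * (x - 1)) := by
      have := Real.add_one_le_exp (u * (x - 1))
      linarith
    have h7 : 0 ≤ 1 + u * (x - 1) := by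
      have : 0 ≤ u * (x - 1) := mul_nonneg hu0 (by linarith)
      linarith
    refine (pow_le_pow_left₀ h7 h6 s).trans ?_
    rw [← Real.exp_nat_mul, ← Real.exp_add]
    apply Real.exp_le_exp.2
    have hs0 : (0 : ℝ) ≤ s := Nat.cast_nonneg _
    have h8 : u * (x - 1) ≤ t * (γ - β) - d ^ 2 / 4 := by
      have h9 : u * (x - 1) ≤ u * (t + t ^ 2) := mul_le_mul_of_nonneg_left hx2 hu0
      have h10 : u * t ^ 2 ≤ t ^ 2 := by nlinarith [sq_nonneg t]
      have h11 : t * (u + d) ≤ t * (γ - β) := mul_le_mul_of_nonneg_left (by linarith) ht0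
      have h12 : t ^ 2 = d ^ 2 / 4 := by rw [ht]; ring
      have h13 : t * d = d ^ 2 / 2 := by rw [ht]; ring
      nlinarith
    nlinarith [mul_le_mul_of_nonneg_left h8 hs0]
  exact le_of_mul_le_mul_left (h4.trans h5) (Real.exp_pos _)

end Pool.Agent.Helper11x.QG
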