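import Pool.Agent.Helper11x.QG.Dp
import Pool.Agent.Helper11x.QG.Bal
import Pool.Agent.Helper11x.QG.Defs

/-!
# The event that quantum circuits with advice solve many inputs of the balanced search language
-/

set_option autoImplicit false

namespace Pool.Agent.Helper11x.QG

open Pool.Agent.NPC Pool.Agent.H620R2.Gauge Pool.Agent.H620R2.Gauge.TV2 Finset H568R2
open Pool.Agent.H676 Filter

open Pool.Agent.H9x.Q (QFamily Gate Short prob prob_congr)

theorem asym3 (P Q : Polynomial ℕ) (f : ℕ → ℝ) (hf : Cond f) (δ : ℝ) (hδ : 0 < δ) (A : ℕ → Prop)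
    (hA : ∀ᶠ n in atTop, A n) :
    ∃ n N σ : ℕ, A n ∧ 1 ≤ n ∧ 32 * σ * (P.eval n + 1) ≤ 2 ^ n ∧ 2 * (P.eval n + 1) ≤ 2 ^ n ∧
      2 ^ (Q.eval n + 1) ≤ N ∧ 2 ^ P.eval n * (2 * (2 / 3 : ℝ) ^ σ) * 2 ^ f N ≤ δ := by
  obtain ⟨n, N, ⟨a0, a1, a2, a3, a4⟩, b, c⟩ := V69_choose Q f hf _ (hA.and (V69_ev P δ))
  set u : ℕ := n / 2 with hu
  have h2u : 2 * u ≤ n := Nat.mul_div_le n 2
  have hpp : 2 ^ u * 2 ^ u ≤ 2 ^ n := by
    rw [← pow_add]
    exact Nat.pow_le_pow_right (by norm_num) (by omega)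
  refine ⟨n, N, 2 ^ u, a0, by omega, ?_, ?_, b, ?_⟩
  · calc 32 * 2 ^ u * (P.eval n + 1) ≤ 2 ^ u * (64 * (P.eval n + 1)) := by
          have : 0 ≤ 2 ^ u * (P.eval n + 1) := Nat.zero_le _
          nlinarith
      _ ≤ 2 ^ u * 2 ^ u := Nat.mul_le_mul_left _ a1
      _ ≤ 2 ^ n := hpp
  · have h1 : 1 ≤ 2 ^ u := Nat.one_le_two_pow
    calc 2 * (P.eval n + 1) ≤ 64 * (P.eval n + 1) := by omega
      _ ≤ 2 ^ u := a1
      _ ≤ 2 ^ u * 2 ^ u := Nat.le_mul_of_pos_left _ h1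
      _ ≤ 2 ^ n := hpp
  · have hF : 16 * f N ≤ (2 : ℝ) ^ u := by
      have h1 : f N ≤ 2 ^ ((u : ℝ) - 4) :=
        c.trans (Real.rpow_le_rpow_of_exponent_le (by norm_num) (by linarith))
      rw [Real.rpow_sub (by norm_num), Real.rpow_natCast] at h1
      have h2 : (2 : ℝ) ^ (4 : ℝ) = 16 := by norm_num
      rw [h2] at h1
      linarith
    have hp : 16 * ((P.eval n : ℕ) : ℝ) ≤ (2 : ℝ) ^ u := by
      have : 16 * P.eval n ≤ 2 ^ u := by omega
      exact_mod_cast this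
    have hT1 : (8 : ℝ) ≤ (2 : ℝ) ^ u := by
      have : 8 ≤ 2 ^ u := by omega
      exact_mod_cast this
    have hh := V69_half (2 ^ u)
    push_cast at hh
    have hm := V69_real δ hδ (P.eval n : ℕ) (2 ^ u) (f N) hp hF a2 hT1
    refine le_trans ?_ hm
    rw [Real.rpow_natCast]
    have : (0 : ℝ) < 2 ^ f N := by positivity
    gcongr

open Classical in
/-- The event. -/
def EvQ (F : QFamily) (p : Polynomial ℕ) (γ : ℝ) (k r n N s L : ℕ) (a : Fin N → Bool) : Prop :=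
  ∃ c ≤ p.eval n, ∃ h : List Bool, h.length = c ∧
    γ * (s * L) ≤ ((univ.filter (fun y : Fin s × Fin L => RightAt (1 / 3) (2 / 3)
      (WQ n N s L k r y) (fun a => accAdv F (orc N a) (inpQ n s L y) h) a)).card : ℝ)

open Classical in
theorem evQ_bound (F : QFamily) (p S : Polynomial ℕ) (k r : ℕ) {n N s L : ℕ} {γ u β d : ℝ}
    (hS : (F.circ n).length ≤ S.eval n) (hSh : Short (S.eval n) (F.circ n)) (hn : 1 ≤ n)
    (hk : k ≤ n) (hr : r ≤ 2 ^ k) (hL : 1 ≤ L) (hs : s * L ≤ 2 ^ n)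
    (hu : max ((1 - (1 / 2 : ℝ) ^ n) ^ (r * 2 ^ (n - k)))
      (1 - (1 - (1 / 2) ^ n) ^ (r * 2 ^ (n - k))) +
      144 * (16 * ((S.eval n : ℕ) : ℝ) ^ 2) * (1 / 2) ^ n ≤ u) (hu1 : u ≤ 1)
    (hTL : 144 * (16 * ((S.eval n : ℕ) : ℝ) ^ 2) ≤ β * L)
    (hd0 : 0 ≤ d) (hd1 : d ≤ 1) (hγ : u + β + d ≤ γ) (hN : 2 ^ (3 * n + 1) ≤ N + 1) :
    Ex unif (fun a : Fin N → Bool =>
      if EvQ F p γ k r n N s L a then (1 : ℝ) else 0) ≤
      2 ^ (2 * p.eval n) * Real.exp (-(d ^ 2 / 4 * s)) := by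
  set M := S.eval n with hM
  have h1 : ∀ c ∈ Finset.range (p.eval n + 1), ∀ h ∈ strsOf c,
      Ex unif (fun a : Fin N → Bool => if γ * (s * L) ≤
        ((univ.filter (fun y : Fin s × Fin L => RightAt (1 / 3) (2 / 3)
      (WQ n N s L k r y) (fun a => accAdv F (orc N a) (inpQ n s L y) h) a)).card : ℝ)
        then (1 : ℝ) else 0) ≤ Real.exp (-(d ^ 2 / 4 * s)) := by
    intro c _ h _
    refine dp_bound (T := 16 * (M : ℝ) ^ 2) (J := Fin r × Fin (2 ^ (n - k))) (u := u) (β := β) hn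
      (by positivity) ?_ hu1 hL hTL hd0 hd1 hγ (WQ n N s L k r) (fun y j => card_WQ hN y j)
      (fun y j y' j' hne => disj_WQ hk hr hs y j y' j' hne)
      (fun y a => accAdv F (orc N a) (inpQ n s L y) h) ?_
    · rw [Fintype.card_prod, Fintype.card_fin, Fintype.card_fin]
      exact hu
    · intro y
      unfold accAdv
      rw [length_inpQ]
      refine smooth_prob (F.circ n) hSh _ _ N ?_
      have h4 : ((F.circ n).length : ℝ) ≤ M := by exact_mod_cast hS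
      have h5 := pow_le_pow_left₀ (by positivity) h4 2
      linarith
  have hU : Ex unif (fun a : Fin N → Bool => if EvQ F p γ k r n N s L a then (1 : ℝ) else 0) ≤
      ∑ c ∈ Finset.range (p.eval n + 1), ∑ h ∈ strsOf c, Ex unif (fun a : Fin N → Bool =>
        if γ * (s * L) ≤
        ((univ.filter (fun y : Fin s × Fin L => RightAt (1 / 3) (2 / 3)
      (WQ n N s L k r y) (fun a => accAdv F (orc N a) (inpQ n s L y) h) a)).card : ℝ)
        then (1 : ℝ) else 0) := by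
    simp only [← Ex_sum]
    apply Ex_mono unif_nonneg
    intro a
    by_cases hE : EvQ F p γ k r n N s L a
    · rw [if_pos hE]
      obtain ⟨c, hc, h, hh, hk⟩ := hE
      refine le_trans ?_ (Finset.single_le_sum (f := fun c => ∑ h ∈ strsOf c,
        if γ * (s * L) ≤
        ((univ.filter (fun y : Fin s × Fin L => RightAt (1 / 3) (2 / 3)
      (WQ n N s L k r y) (fun a => accAdv F (orc N a) (inpQ n s L y) h) a)).card : ℝ)
        then (1 : ℝ) else 0)
        (fun c _ => Finset.sum_nonneg fun h _ => by positivity)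
        (Finset.mem_range.2 (Nat.lt_succ_of_le hc)))
      refine le_trans ?_ (Finset.single_le_sum (f := fun h =>
        if γ * (s * L) ≤
        ((univ.filter (fun y : Fin s × Fin L => RightAt (1 / 3) (2 / 3)
      (WQ n N s L k r y) (fun a => accAdv F (orc N a) (inpQ n s L y) h) a)).card : ℝ)
        then (1 : ℝ) else 0)
        (fun h _ => by positivity) (by rw [← hh]; exact mem_strsOf h))
      rw [if_pos hk]
    · rw [if_neg hE]
      exact Finset.sum_nonneg fun c _ => Finset.sum_nonneg fun h _ => by positivity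
  refine hU.trans ((Finset.sum_le_sum fun c hc => Finset.sum_le_sum (h1 c hc)).trans ?_)
  have hB : (0 : ℝ) ≤ Real.exp (-(d ^ 2 / 4 * s)) := Real.exp_nonneg _
  have h2 : ∀ c ∈ Finset.range (p.eval n + 1), ∑ _h ∈ strsOf c, Real.exp (-(d ^ 2 / 4 * s)) ≤
      2 ^ p.eval n * Real.exp (-(d ^ 2 / 4 * s)) := by
    intro c hc
    rw [Finset.mem_range, Nat.lt_succ_iff] at hc
    rw [Finset.sum_const, nsmul_eq_mul]
    apply mul_le_mul_of_nonneg_right _ hB
    have h5 : (strsOf c).card ≤ 2 ^ p.eval n :=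
      (card_strsOf c).trans (Nat.pow_le_pow_right (by norm_num) hc)
    exact_mod_cast h5
  refine (Finset.sum_le_sum h2).trans ?_
  rw [Finset.sum_const, Finset.card_range, nsmul_eq_mul, ← mul_assoc]
  apply mul_le_mul_of_nonneg_right _ hB
  have hp1 : ((p.eval n + 1 : ℕ) : ℝ) ≤ 2 ^ p.eval n := by
    have : p.eval n + 1 ≤ 2 ^ p.eval n := Nat.lt_two_pow_self
    exact_mod_cast this
  calc ((p.eval n + 1 : ℕ) : ℝ) * 2 ^ p.eval n ≤ 2 ^ p.eval n * 2 ^ p.eval n := by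
        gcongr
    _ = 2 ^ (2 * p.eval n) := by rw [← pow_add]; congr 1; ring

/-- the oracles for which the parameters are good -/
def EasyQ (F : QFamily) (p : Polynomial ℕ) (n₀ : ℕ) (γ : ℝ) (k r : ℕ) : Set Oracle :=
  {A | ∃ h : ℕ → List Bool, (∀ n, (h n).length ≤ p.eval n) ∧ ∀ n ≥ n₀,
    γ * 2 ^ n ≤ ({x : List Bool | x.length = n ∧ Correct F A (balLang k r A) x (h n)}.ncard : ℝ)}

theorem evQ_of_easy (F : QFamily) (p S : Polynomial ℕ) (n₀ : ℕ) (γ : ℝ) (k r : ℕ) (A : Oracle)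
    (hA : A ∈ EasyQ F p n₀ γ k r) {n N s L : ℕ} (hSh : Short (S.eval n) (F.circ n)) (hn : n₀ ≤ n)
    (hk : k ≤ n) (hr : r ≤ 2 ^ k) (hL : 1 ≤ L) (hs : s * L = 2 ^ n)
    (hN : 2 ^ (S.eval n + 3 * n + 1) ≤ N) : EvQ F p γ k r n N s L (pre N A) := by
  classical
  obtain ⟨h, hh, hx⟩ := hA
  refine ⟨(h n).length, hh n, h n, rfl, ?_⟩
  have hN' : 2 ^ (3 * n + 1) ≤ N + 1 := by
    have h4 : 2 ^ (3 * n + 1) ≤ 2 ^ (S.eval n + 3 * n + 1) :=
        Nat.pow_le_pow_right (by norm_num) (by omega)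
    omega
  have h1 := hx n hn
  have h2 : (s : ℝ) * L = 2 ^ n := by exact_mod_cast hs
  rw [h2]
  refine h1.trans ?_
  have h3 : {x : List Bool | x.length = n ∧ Correct F A (balLang k r A) x (h n)} ⊆
      ((univ.filter (fun y : Fin s × Fin L => RightAt (1 / 3) (2 / 3)
      (WQ n N s L k r y) (fun a => accAdv F (orc N a) (inpQ n s L y) (h n)) (pre N A))).image
      (inpQ n s L) : Finset (List Bool)) := by
    rintro x ⟨hxn, hxc⟩
    obtain ⟨y, rfl⟩ := inpQ_surj hL hs hxn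
    rw [Finset.mem_coe, Finset.mem_image]
    refine ⟨y, ?_, rfl⟩
    rw [Finset.mem_filter]
    refine ⟨Finset.mem_univ _, ?_⟩
    have h4 : accAdv F (orc N (pre N A)) (inpQ n s L y) (h n) = accAdv F A (inpQ n s L y) (h n) := by
      unfold accAdv
      rw [length_inpQ]
      refine prob_congr (B := S.eval n) ?_ _ hSh _ _
      intro q hq
      apply orc_pre
      have h3 := idx_lt q
      have h4 : 2 ^ (q.length + 1) ≤ 2 ^ (S.eval n + 3 * n + 1) :=
        Nat.pow_le_pow_right (by norm_num) (by omega)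
      omega
    unfold RightAt
    rw [hitQ_iff hk hr hN']
    simp only [h4]
    exact hxc
  have h4 := Set.ncard_le_ncard h3 (Finset.finite_toSet _)
  rw [Set.ncard_coe_finset] at h4
  have h5 := h4.trans Finset.card_image_le
  exact_mod_cast h5

theorem exists_pow_between {B : ℕ} (hB : 1 ≤ B) : ∃ a : ℕ, B ≤ 2 ^ a ∧ 2 ^ a ≤ 2 * B := by
  refine ⟨Nat.log 2 B + 1, (Nat.lt_pow_succ_log_self (by norm_num) B).le, ?_⟩
  rw [pow_succ]
  have := Nat.pow_log_le_self 2 (x := B) (by omega)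
  omega

theorem null_easyQ {f : ℕ → ℝ} (hf : Cond f) {γ : ℝ} (hγ0 : 1 / 2 < γ) (hγ1 : γ ≤ 1)
    {k r : ℕ} (hr : r ≤ 2 ^ k) (hρ : ∀ᶠ n : ℕ in atTop,
      max ((1 - (1 / 2 : ℝ) ^ n) ^ (r * 2 ^ (n - k))) (1 - (1 - (1 / 2) ^ n) ^ (r * 2 ^ (n - k))) ≤
      1 / 2 + (γ - 1 / 2) / 4) (F : QFamily) (p : Polynomial ℕ) (n₀ : ℕ) :
    Null f (EasyQ F p n₀ γ k r) := by
  classical
  intro δ hδ
  obtain ⟨S, hS⟩ := F.size
  set η : ℝ := (γ - 1 / 2) / 4 with hη
  have hη0 : 0 < η := by rw [hη]; linarith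
  have hη1 : η ≤ 1 / 8 := by rw [hη]; linarith
  obtain ⟨D, hD⟩ := exists_nat_ge (144 * 16 / η)
  obtain ⟨D', hD'⟩ := exists_nat_ge (1 / η ^ 2)
  have hD1 : 144 * 16 ≤ η * D := by
    rw [div_le_iff₀ hη0] at hD
    linarith
  have hD2 : 1 ≤ η ^ 2 * D' := by
    rw [div_le_iff₀ (by positivity)] at hD'
    linarith
  set Bp : Polynomial ℕ := Polynomial.C D * S ^ 2 + 1 with hBp
  have hBe : ∀ n, Bp.eval n = D * (S.eval n) ^ 2 + 1 := fun n => by simp [hBp]
  set P : Polynomial ℕ := 2 * p + Polynomial.C (D' + 1) * Bp with hP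
  have hPe : ∀ n, P.eval n = 2 * p.eval n + (D' + 1) * Bp.eval n := fun n => by
    rw [hP]
    simp
  obtain ⟨n, N, σ, ⟨hn0, hnk, hρn⟩, hn, hσ, hp, hN, hb⟩ := asym3 P
    (S + 3 * Polynomial.X) f hf δ hδ (fun n => n₀ ≤ n ∧ k ≤ n ∧
      max ((1 - (1 / 2 : ℝ) ^ n) ^ (r * 2 ^ (n - k))) (1 - (1 - (1 / 2) ^ n) ^ (r * 2 ^ (n - k))) ≤
      1 / 2 + η) ((eventually_ge_atTop n₀).and ((eventually_ge_atTop k).and hρ))
  have hQe : (S + 3 * Polynomial.X).eval n = S.eval n + 3 * n := by simp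
  rw [hQe] at hN
  have hN2 : 2 ^ (3 * n + 1) ≤ N + 1 :=
    le_trans (Nat.pow_le_pow_right (by norm_num) (by omega)) (hN.trans (Nat.le_succ _))
  set B := Bp.eval n with hB
  have hB1 : 1 ≤ B := by
    have := hBe n
    omega
  obtain ⟨a, ha1, ha2⟩ := exists_pow_between hB1
  have hPn := hPe n
  have h2B : 2 * B ≤ 2 ^ n := by
    have h3 : B ≤ P.eval n := by
      rw [hPn]
      nlinarith
    omega
  have han : a ≤ n := (Nat.pow_le_pow_iff_right (by norm_num : 1 < 2)).1 (ha2.trans h2B)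
  set L := 2 ^ a with hL
  set s := 2 ^ (n - a) with hs
  have hsL : s * L = 2 ^ n := by
    rw [hs, hL, ← pow_add]
    congr 1
    omega
  have hL1 : 1 ≤ L := Nat.one_le_two_pow
  have hTB : 144 * (16 * ((S.eval n : ℕ) : ℝ) ^ 2) ≤ η * B := by
    have h3 : (B : ℝ) = D * ((S.eval n : ℕ) : ℝ) ^ 2 + 1 := by
      have := hBe n
      exact_mod_cast this
    rw [h3]
    have h4 : (0 : ℝ) ≤ ((S.eval n : ℕ) : ℝ) ^ 2 := by positivity
    nlinarith [mul_le_mul_of_nonneg_right hD1 h4]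
  refine cover_of_event (EvQ F p γ k r n N s L) (EasyQ F p n₀ γ k r)
    (fun A hA => evQ_of_easy F p S n₀ γ k r A hA (hS n).2 hn0 hnk hr hL1 hsL hN) f δ ?_
  have hBr : (B : ℝ) ≤ 2 ^ n := by
    have : B ≤ 2 ^ n := by omega
    exact_mod_cast this
  have hev := evQ_bound F p S k r (γ := γ) (u := 1 / 2 + 2 * η) (β := η) (d := η)
    (hS n).1 (hS n).2 hn hnk hr hL1 hsL.le (by
      have h4 : 144 * (16 * ((S.eval n : ℕ) : ℝ) ^ 2) * (1 / 2) ^ n ≤ η := by
        have h5 : (0 : ℝ) < (1 / 2) ^ n := by positivity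
        have h6 : (2 : ℝ) ^ n * (1 / 2) ^ n = 1 := by
          rw [← mul_pow]
          norm_num
        calc 144 * (16 * ((S.eval n : ℕ) : ℝ) ^ 2) * (1 / 2) ^ n ≤ η * B * (1 / 2) ^ n :=
              mul_le_mul_of_nonneg_right hTB h5.le
          _ ≤ η * 2 ^ n * (1 / 2) ^ n := by gcongr
          _ = η := by rw [mul_assoc, h6, mul_one]
      linarith) (by linarith) (by
      refine hTB.trans ?_
      have : (B : ℝ) ≤ L := by exact_mod_cast ha1
      exact mul_le_mul_of_nonneg_left this hη0.le) hη0.le (by linarith) (by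
      rw [hη]
      linarith) hN2
  refine (mul_le_mul_of_nonneg_right hev (by positivity)).trans (le_trans ?_ hb)
  apply mul_le_mul_of_nonneg_right _ (by positivity)
  -- the size of `s`
  have hs1 : 16 * σ * D' ≤ s := by
    have h3 : 2 ^ n ≤ s * (2 * B) := by
      rw [← hsL]
      exact Nat.mul_le_mul_left _ ha2
    have h4 : 32 * σ * (D' * B) ≤ s * (2 * B) := by
      refine le_trans ?_ (hσ.trans h3)
      apply Nat.mul_le_mul_left
      rw [hPn]
      nlinarith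
    have h5 : (16 * σ * D') * (2 * B) ≤ s * (2 * B) := by
      calc (16 * σ * D') * (2 * B) = 32 * σ * (D' * B) := by ring
        _ ≤ _ := h4
    exact Nat.le_of_mul_le_mul_right h5 (by omega)
  have hs2 : (4 : ℝ) * σ ≤ η ^ 2 / 4 * s := by
    have h3 : (16 : ℝ) * σ * D' ≤ s := by exact_mod_cast hs1
    have h4 : (0 : ℝ) ≤ σ := Nat.cast_nonneg _
    have h5 : η ^ 2 / 4 * (16 * σ * D') ≤ η ^ 2 / 4 * s :=
      mul_le_mul_of_nonneg_left h3 (by positivity)
    refine le_trans ?_ h5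
    nlinarith [mul_le_mul_of_nonneg_left hD2 h4]
  have h6 : Real.exp (-(η ^ 2 / 4 * s)) ≤ 2 * (2 / 3 : ℝ) ^ σ := by
    have h7 : Real.exp (-(η ^ 2 / 4 * s)) ≤ (Real.exp (-4)) ^ σ := by
      rw [← Real.exp_nat_mul]
      apply Real.exp_le_exp.2
      linarith
    have h8 : Real.exp (-4) ≤ 2 / 3 := by
      rw [Real.exp_neg]
      have h9 := Real.add_one_le_exp (4 : ℝ)
      rw [inv_le_comm₀ (Real.exp_pos _) (by norm_num)]
      linarith
    have h9 := pow_le_pow_left₀ (Real.exp_nonneg _) h8 σ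
    have h10 : (0 : ℝ) ≤ (2 / 3 : ℝ) ^ σ := by positivity
    linarith
  have h7 : (2 : ℝ) ^ (2 * p.eval n) ≤ 2 ^ P.eval n :=
    pow_le_pow_right₀ (by norm_num) (by omega)
  exact mul_le_mul h7 h6 (Real.exp_nonneg _) (by positivity)

/-- **Small gauges.** The oracles relative to which quantum circuits solve `NP` on a fraction
`γ > 1 / 2` of the inputs form a null set. -/
theorem null_heur {f : ℕ → ℝ} (hf : Cond f) {γ : ℝ} (hγ0 : 1 / 2 < γ) (hγ1 : γ ≤ 1)
    (O : Set Oracle) (hO : ∀ A ∈ O, ∀ L, IsNP A L → QHeur γ A L) : Null f O := by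
  have hc := Pool.Agent.H9x.Q.QFamily.countable
  have hc2 := Pool.Agent.H620R2.Gauge.CC.poly_countable
  obtain ⟨k, r, hr, hρ⟩ := exists_balanced (η := (γ - 1 / 2) / 4) (by linarith)
  refine (null_iUnion (f := f) (fun θ : QFamily × Polynomial ℕ × ℕ =>
    EasyQ θ.1 θ.2.1 θ.2.2 γ k r) fun θ => null_easyQ hf hγ0 hγ1 hr hρ θ.1 θ.2.1 θ.2.2).mono
    fun A hA => ?_
  obtain ⟨F, p, h, hh, hx⟩ := hO A hA _ (balLang_np k r A)
  obtain ⟨n₀, hn⟩ := eventually_atTop.1 hx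
  exact Set.mem_iUnion.2 ⟨(F, p, n₀), h, hh, hn⟩

end Pool.Agent.Helper11x.QG
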