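import Pool.Agent.H9x.Q.Hyb
import Pool.Agent.Helper11x.SW7.Base
import Pool.Agent.H622R2.CoNP

/-!
# Quantum circuits with one question

The language of the strings whose code strings are in the oracle is in `BQP` relative to the
oracle. Hence every oracle can be changed at sparse code strings in such a way that `PSPACE` is
contained in `P` and in `BQP` relative to the new oracle.
-/

set_option autoImplicit false

namespace Pool.Agent.Helper11x.QG

open Pool.Agent.NPC Pool.Agent.H620R2.Gauge Pool.Agent.H9x.Q Finset
open Pool.Agent.H622R2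
open Pool.Agent.Helper11x.SW7 (Reach)

variable {m : ℕ}

theorem ket_flip {r : ℕ} {c : Basis m → Bool} (hc : ∀ z b, c (put z r b) = c z) (z₀ : Basis m) :
    (fun z => ket z₀ (flipBy r c z)) = ket (flipBy r c z₀) := by
  funext z
  unfold ket
  refine if_congr ⟨fun h => ?_, fun h => ?_⟩ rfl rfl
  · rw [← h, flipBy_invol hc]
  · rw [h, flipBy_invol hc]

theorem bit_flip_self {r : ℕ} (hr : r < m) (c : Basis m → Bool) (z : Basis m) :
    bit (flipBy r c z) r = xor (bit z r) (c z) := bit_put_self hr _

theorem bit_flip_ne {q r : ℕ} (h : q ≠ r) (c : Basis m → Bool) (z : Basis m) :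
    bit (flipBy r c z) q = bit z q := bit_put_ne h _

/-- negation of a qubit -/
def xgate (q : ℕ) : List Gate := [.had q, .tgate q, .tgate q, .tgate q, .tgate q, .had q]

theorem run_app (A : Oracle) (C C' : List Gate) : ∀ ψ : Basis m → ℂ,
    run A (C ++ C') ψ = run A C' (run A C ψ) := by
  induction C with
  | nil => intro ψ; rfl
  | cons g C ih => intro ψ; exact ih _

theorem run_xgate (A : Oracle) {q : ℕ} (hq : q < m) (ψ : Basis m → ℂ) :
    run A (xgate q) ψ = fun z => ψ (flipBy q (fun _ => true) z) := by
  have hT : ∀ φ : Basis m → ℂ, run A [.tgate q, .tgate q, .tgate q, .tgate q] φ =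
      fun z => (if bit z q then -1 else 1) * φ z := by
    intro φ
    funext z
    simp only [run, Gate.act]
    cases bit z q
    · simp
    · simp only [if_true]
      have h4 : Complex.exp (Real.pi / 4 * Complex.I) * (Complex.exp (Real.pi / 4 * Complex.I) *
          (Complex.exp (Real.pi / 4 * Complex.I) * (Complex.exp (Real.pi / 4 * Complex.I)))) = -1 := by
        rw [← Complex.exp_add, ← Complex.exp_add, ← Complex.exp_add, ← Complex.exp_pi_mul_I]
        congr 1
        ring
      calc _ = (Complex.exp (Real.pi / 4 * Complex.I) * (Complex.exp (Real.pi / 4 * Complex.I) *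
          (Complex.exp (Real.pi / 4 * Complex.I) * (Complex.exp (Real.pi / 4 * Complex.I))))) *
          φ z := by ring
        _ = _ := by rw [h4]
  have hxg : xgate q = [Gate.had q] ++
    ([.tgate q, .tgate q, .tgate q, .tgate q] ++ [Gate.had q]) := rfl
  rw [hxg, run_app, run_app, hT]
  funext z
  simp only [run, Gate.act, if_pos hq, bit_put_self hq, put_put, flipBy]
  have h3 : (Real.sqrt 2 : ℂ) * (Real.sqrt 2 : ℂ) = 2 := by
    rw [← Complex.ofReal_mul, Real.mul_self_sqrt (by norm_num)]
    norm_num
  have h2 : (Real.sqrt 2 : ℂ) ≠ 0 := by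
    intro h
    rw [h] at h3
    norm_num at h3
  cases hb : bit z q
  · simp only [Bool.false_eq_true, if_false, if_true, Bool.false_xor]
    field_simp
    rw [sq, h3]
    ring
  · simp only [Bool.false_eq_true, if_false, if_true, Bool.true_xor, Bool.not_true]
    field_simp
    rw [sq, h3]
    ring

theorem act_cnot_ket (A : Oracle) {q r : ℕ} (h : q ≠ r) (z₀ : Basis m) :
    (Gate.cnot q r).act A (ket z₀) = ket (flipBy r (fun z => bit z q) z₀) := by
  rw [act_cnot A h, ket_flip (fun z b => bit_put_ne h b)]

theorem act_query_ket (A : Oracle) {l : List ℕ} {r : ℕ} (h : r ∉ l) (z₀ : Basis m) :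
    (Gate.query l r).act A (ket z₀) = ket (flipBy r (fun z => A (l.map (bit z))) z₀) := by
  rw [act_query A h, ket_flip (fun z b => by rw [map_bit_put h])]

theorem run_xgate_ket (A : Oracle) {q : ℕ} (hq : q < m) (z₀ : Basis m) :
    run A (xgate q) (ket z₀) = ket (flipBy q (fun _ => true) z₀) := by
  rw [run_xgate A hq, ket_flip (fun _ _ => rfl)]

/-- the qubits which contain the code string -/
def lst (e n t : ℕ) : List ℕ :=
  List.replicate e (n + 1) ++ (n + 2) :: (List.replicate t (n + 1) ++ (n + 2) ::
    (List.range n).map (fun i => if i = 0 then n + 3 else i))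

theorem zero_notMem_lst (e n t : ℕ) : 0 ∉ lst e n t := by
  unfold lst
  intro h
  simp only [List.mem_append, List.mem_replicate, List.mem_cons, List.mem_map,
    List.mem_range] at h
  rcases h with ⟨_, h⟩ | h | ⟨_, h⟩ | h | ⟨i, _, h⟩
  · omega
  · omega
  · omega
  · omega
  · split_ifs at h <;> omega

/-- the circuit with one question -/
def oneC (e n t : ℕ) : List Gate :=
  xgate (n + 1) ++ [.cnot 0 (n + 3), .cnot (n + 3) 0, .query (lst e n t) 0]

theorem prob_ket (z : Basis m) : (∑ w : Basis m, if bit w 0 then ‖ket z w‖ ^ 2 else (0 : ℝ)) =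
    if bit z 0 then 1 else 0 := by
  rw [Finset.sum_eq_single z]
  · simp [ket]
  · intro w _ hw
    simp [ket, hw]
  · simp

theorem prob_oneC (A : Oracle) (e t : ℕ) (x : List Bool) :
    prob A (oneC e x.length t) (x.length + 4) x =
      if A (List.replicate e true ++ false :: (List.replicate t true ++ false :: x)) then 1
        else 0 := by
  set n := x.length with hn
  set z₀ : Basis (n + 4) := Pool.Agent.H9x.Q.inp (n + 4) x with hz₀
  have b0 : ∀ q, q < n + 4 → bit z₀ q = x.getD q false := by
    intro q hq
    simp [bit, hz₀, Pool.Agent.H9x.Q.inp, hq]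
  have hlt : ∀ q, n ≤ q → x.getD q false = false := by
    intro q hq
    rw [List.getD_eq_default]
    omega
  set z₁ : Basis (n + 4) := flipBy (n + 1) (fun _ => true) z₀ with hz₁
  set z₂ : Basis (n + 4) := flipBy (n + 3) (fun z => bit z 0) z₁ with hz₂
  set z₃ : Basis (n + 4) := flipBy 0 (fun z => bit z (n + 3)) z₂ with hz₃
  set z₄ : Basis (n + 4) := flipBy 0 (fun z => A ((lst e n t).map (bit z))) z₃ with hz₄
  have hrun : run A (oneC e n t) (ket z₀) = ket z₄ := by
    unfold oneC
    rw [run_app, run_xgate_ket A (by omega)]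
    simp only [run]
    rw [act_cnot_ket A (by omega), act_cnot_ket A (by omega),
      act_query_ket A (zero_notMem_lst e n t)]
  unfold prob
  rw [← hz₀, hrun, prob_ket]
  -- the values of the qubits
  have c1 : bit z₁ (n + 1) = true := by
    rw [hz₁, bit_flip_self (by omega), b0 _ (by omega), hlt _ (by omega)]
    rfl
  have c2 : ∀ q, q < n + 4 → q ≠ n + 1 → bit z₁ q = x.getD q false := by
    intro q hq hne
    rw [hz₁, bit_flip_ne hne, b0 q hq]
  have d1 : bit z₂ (n + 3) = x.getD 0 false := by
    rw [hz₂, bit_flip_self (by omega), c2 _ (by omega) (by omega), hlt _ (by omega),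
      c2 0 (by omega) (by omega), Bool.false_xor]
  have d2 : ∀ q, q ≠ n + 3 → bit z₂ q = bit z₁ q := fun q hq => by rw [hz₂, bit_flip_ne hq]
  have e1 : bit z₃ 0 = false := by
    rw [hz₃, bit_flip_self (by omega), d1, d2 0 (by omega), c2 0 (by omega) (by omega),
      Bool.xor_self]
  have e2 : ∀ q, q ≠ 0 → bit z₃ q = bit z₂ q := fun q hq => by rw [hz₃, bit_flip_ne hq]
  have f1 : bit z₃ (n + 1) = true := by
    rw [e2 _ (by omega), d2 _ (by omega), c1]
  have f2 : bit z₃ (n + 2) = false := by
    rw [e2 _ (by omega), d2 _ (by omega), c2 _ (by omega) (by omega), hlt _ (by omega)]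
  have f3 : (List.range n).map (fun i => bit z₃ (if i = 0 then n + 3 else i)) = x := by
    refine List.ext_getElem (by simp [hn]) fun i h1 h2 => ?_
    simp only [List.getElem_map, List.getElem_range]
    have hin : i < n := h2
    have hx : x.getD i false = x[i] := by
      rw [List.getD_eq_getElem _ _ h2]
    by_cases h0 : i = 0
    · subst h0
      rw [if_pos rfl, e2 _ (by omega), d1, hx]
    · rw [if_neg h0, e2 _ h0, d2 _ (by omega), c2 _ (by omega) (by omega), hx]
  have f4 : (lst e n t).map (bit z₃) =
      List.replicate e true ++ false :: (List.replicate t true ++ false :: x) := by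
    unfold lst
    simp only [List.map_append, List.map_cons, List.map_replicate, f1, f2, List.map_map]
    congr 3
    congr 1
  have g1 : bit z₄ 0 = A (List.replicate e true ++ false ::
      (List.replicate t true ++ false :: x)) := by
    rw [hz₄, bit_flip_self (by omega), e1, f4, Bool.false_xor]
  rw [g1]

section Poly

variable {α : Type} [TEnc α]

theorem poly_had {q : α → ℕ} (h : Poly q) : Poly (fun a => Gate.had (q a)) :=
  Poly.of_toT (f := fun a => Gate.had (q a)) (Poly.toT' (Poly.inl (γ := (ℕ × ℕ) ⊕ (List ℕ × ℕ))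
    (Poly.inl (γ := ℕ) h)))

theorem poly_tgate {q : α → ℕ} (h : Poly q) : Poly (fun a => Gate.tgate (q a)) :=
  Poly.of_toT (f := fun a => Gate.tgate (q a)) (Poly.toT' (Poly.inl (γ := (ℕ × ℕ) ⊕ (List ℕ × ℕ))
    (Poly.inr (β := ℕ) h)))

theorem poly_cnot {q r : α → ℕ} (h : Poly q) (h' : Poly r) :
    Poly (fun a => Gate.cnot (q a) (r a)) :=
  Poly.of_toT (f := fun a => Gate.cnot (q a) (r a)) (Poly.toT' (Poly.inr (β := ℕ ⊕ ℕ)
    (Poly.inl (γ := List ℕ × ℕ) (Poly.pair h h'))))

theorem poly_query {l : α → List ℕ} {r : α → ℕ} (h : Poly l) (h' : Poly r) :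
    Poly (fun a => Gate.query (l a) (r a)) :=
  Poly.of_toT (f := fun a => Gate.query (l a) (r a)) (Poly.toT' (Poly.inr (β := ℕ ⊕ ℕ)
    (Poly.inr (β := ℕ × ℕ) (Poly.pair h h'))))

theorem poly_xgate {q : α → ℕ} (h : Poly q) : Poly (fun a => xgate (q a)) :=
  Poly.cons (poly_had h) (Poly.cons (poly_tgate h) (Poly.cons (poly_tgate h)
    (Poly.cons (poly_tgate h) (Poly.cons (poly_tgate h) (Poly.cons (poly_had h)
      (NPC.Poly.const []))))))

theorem poly_repl {n : α → ℕ} {c : α → ℕ} (hn : UPoly n) (hc : Poly c) :
    Poly (fun a => List.replicate (n a) (c a)) := by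
  have h := NPC.Poly.map (F := fun (a : α) (_ : Unit) => c a) hn (hc.comp (Poly.fst Poly.id))
  exact h.congr fun a => by simp

theorem poly_lst (e : ℕ) {n t : α → ℕ} (hn : UPoly n) (ht : UPoly t) :
    Poly (fun a => lst e (n a) (t a)) := by
  unfold lst
  have hn' := hn.toPoly
  have h1 : Poly (fun a => n a + 1) := Poly.add hn' (NPC.Poly.const 1)
  have h2 : Poly (fun a => n a + 2) := Poly.add hn' (NPC.Poly.const 2)
  refine Poly.append (poly_repl (UPoly.const e) h1) (Poly.cons h2
    (Poly.append (poly_repl ht h1) (Poly.cons h2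
      (NPC.Poly.map (UPoly.range hn) (Poly.ite (Poly.decide_eq (Poly.snd Poly.id)
        (NPC.Poly.const 0)) (Poly.add (hn'.comp (Poly.fst Poly.id)) (NPC.Poly.const 3))
          (Poly.snd Poly.id))))))

theorem poly_oneC (e : ℕ) {n t : α → ℕ} (hn : UPoly n) (ht : UPoly t) :
    Poly (fun a => oneC e (n a) (t a)) := by
  unfold oneC
  have h3 : Poly (fun a => n a + 3) := Poly.add hn.toPoly (NPC.Poly.const 3)
  exact Poly.append (poly_xgate (Poly.add hn.toPoly (NPC.Poly.const 1)))
    (Poly.cons (poly_cnot (NPC.Poly.const 0) h3) (Poly.cons (poly_cnot h3 (NPC.Poly.const 0))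
      (Poly.cons (poly_query (poly_lst e hn ht) (NPC.Poly.const 0)) (NPC.Poly.const []))))

end Poly

/-- The strings whose code strings are in the oracle can be decided in `BQP`. -/
theorem isBQP_code (A : Oracle) (R : ℕ → Polynomial ℕ) (e : ℕ) {L : Set (List Bool)}
    (hL : ∀ x, x ∈ L ↔ A (code R e x) = true) : IsBQP A L := by
  have hlen : UPoly (fun u : List Bool => u.length) := UPoly.length Poly.id
  refine ⟨⟨fun n => oneC e n ((R e).eval n), polyTime_bits (poly_oneC e hlen (hlen.eval (R e))),
    Polynomial.C 3⟩, fun x => ?_⟩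
  have hacc : QFamily.acc ⟨fun n => oneC e n ((R e).eval n),
      polyTime_bits (poly_oneC e hlen (hlen.eval (R e))), Polynomial.C 3⟩ A x =
      if A (code R e x) then 1 else 0 := by
    unfold QFamily.acc
    simp only [Polynomial.eval_C]
    exact prob_oneC A e ((R e).eval x.length) x
  rw [hacc, hL x]
  cases h : A (code R e x)
  · simp
  · simp
    norm_num

open CC in
/-- **Large gauges.** Every oracle can be changed at sparse code strings in such a way that
`PSPACE` is contained in `P` and in `BQP` relative to the new oracle. -/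
theorem reach_pspace_bqp : Reach {A | ∀ L, IsPSPACE A L → IsP A L ∧ IsBQP A L} := by
  intro K
  obtain ⟨g, hg⟩ := exists_enum
  choose b hb using fun e : ℕ => act_length (g e).1 (g e).2
  set R : ℕ → Polynomial ℕ := fun e => b e + (Polynomial.X + Polynomial.C (e + 1)) ^ K with hR
  set V : ℕ → Oracle → List Bool → Prop := fun e A x =>
    Acc (g e).1 (cut ((b e).eval x.length) A) x with hV
  have hRe : ∀ e n, (R e).eval n = (b e).eval n + (n + (e + 1)) ^ K := by
    intro e n
    rw [hR]
    simp only [Polynomial.eval_add, Polynomial.eval_pow, Polynomial.eval_X, Polynomial.eval_C]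
  refine ⟨R, Phi R V, ?_, fun B y h => Phi_not R V B y h, ?_⟩
  · intro e n
    rw [hRe, add_assoc n e 1]
    exact Nat.le_add_left _ _
  · rintro B L ⟨M, p, hM⟩
    obtain ⟨e, he⟩ := hg (M, p)
    have hloc : ∀ e A A' x, (∀ z : List Bool, z.length < (code R e x).length → A z = A' z) →
        (V e A x ↔ V e A' x) := by
      intro e A A' x h
      have hcut : cut ((b e).eval x.length) A = cut ((b e).eval x.length) A' := by
        funext z
        unfold cut
        split_ifs with hz
        · apply h
          have h1 := lt_length_code R e x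
          have h2 := hRe e x.length
          omega
        · rfl
      simp only [hV, hcut]
    have key : ∀ x, x ∈ L ↔ Phi R V B (code R e x) = true := by
      intro x
      rw [Phi_code R V B hloc e x]
      change x ∈ L ↔ Acc (g e).1 (cut ((b e).eval x.length) (Phi R V B)) x
      have hbe := hb e
      rw [he] at hbe ⊢
      obtain ⟨hM1, s, z, hs, hz, hL⟩ := hM x
      have hcong : ∀ s, M.Reach (cut ((b e).eval x.length) (Phi R V B)) x s ↔
          M.Reach (Phi R V B) x s := by
        refine reach_congr (fun s => s.length ≤ p.eval x.length) hM1 ?_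
        intro s q h1 h2
        have h3 := hbe x s h1
        rw [h2, List.length_cons] at h3
        unfold cut
        rw [if_pos (by omega)]
      constructor
      · intro hx
        refine ⟨s, (hcong s).2 hs, ?_⟩
        rw [hz, hL.1 hx]
      · rintro ⟨t, ht, ht2⟩
        have hst := reach_unique hs ((hcong t).1 ht) ⟨_, hz⟩ ⟨_, ht2⟩
        rw [hst, ht2] at hz
        simp only [List.cons.injEq, true_and] at hz
        exact hL.2 hz.symm
    refine ⟨isP_of_reduces ⟨fun x => code R e x, polyTime_of_poly_list (poly_code R e), ?_⟩,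
      isBQP_code _ R e key⟩
    intro x
    rw [Set.mem_ofPred_eq]
    exact key x

end Pool.Agent.Helper11x.QG
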