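import Pool.Agent.Helper11x.QG.Ev
import Pool.Agent.Helper11x.QG.OneQ
import Pool.Agent.Helper11x.SW7.Main

/-!
# The worlds in which quantum computers solve `NP`: exact size and distance
-/

set_option autoImplicit false

namespace Pool.Agent.Helper11x.QG

open Pool.Agent.NPC Pool.Agent.H620R2.Gauge Pool.Agent.H9x.Q Filter MeasureTheory
open Pool.Agent.W900.CH
open Pool.Agent.H628R3.RO (randomOracle)
open Pool.Agent.Helper11x.SW7 (Reach)

theorem accAdv_nil (F : QFamily) (A : Oracle) (x : List Bool) : accAdv F A x [] = F.acc A x := by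
  simp [accAdv, QFamily.acc]

theorem two_pow_le_ncard (n : ℕ) {X : Set (List Bool)} (hX : ∀ x : List Bool, x.length = n → x ∈ X)
    (hX' : ∀ x ∈ X, x.length = n) : 2 ^ n ≤ X.ncard := by
  have h1 : X = ((Finset.range (2 ^ n)).image (bitsOf n) : Finset (List Bool)) := by
    ext x
    rw [Finset.mem_coe, Finset.mem_image]
    constructor
    · intro hx
      obtain ⟨j, hj, h⟩ := exists_bitsOf x
      rw [hX' x hx] at hj h
      exact ⟨j, Finset.mem_range.2 hj, h⟩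
    · rintro ⟨j, _, rfl⟩
      exact hX _ (length_bitsOf n j)
  rw [h1, Set.ncard_coe_finset, Finset.card_image_of_injOn, Finset.card_range]
  intro j hj j' hj' h
  exact bitsOf_inj (by simpa using hj) (by simpa using hj') h

theorem qheur_of_bqp {γ : ℝ} (hγ : γ ≤ 1) {A : Oracle} {L : Set (List Bool)} (h : IsBQP A L) :
    QHeur γ A L := by
  obtain ⟨F, hF⟩ := h
  refine ⟨F, 0, fun _ => [], fun n => by simp, Eventually.of_forall fun n => ?_⟩
  have h1 := two_pow_le_ncard n (X := {x : List Bool | x.length = n ∧ Correct F A L x []})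
    (fun x hx => ⟨hx, by
      unfold Correct
      rw [accAdv_nil]
      exact hF x⟩) (fun x hx => hx.1)
  have h2 : ((2 : ℝ) ^ n) ≤ ({x : List Bool | x.length = n ∧ Correct F A L x []}.ncard : ℝ) := by
    exact_mod_cast h1
  refine le_trans ?_ h2
  have : (0 : ℝ) < 2 ^ n := by positivity
  nlinarith

/-- **Exact size and distance** of every set of oracles between `PSPACE ⊆ P ∩ BQP` and
`NP ⊆ Heur_γ BQP/poly`. -/
theorem exact (γ : ℝ) (hγ0 : 1 / 2 < γ) (hγ1 : γ ≤ 1) (O : Set Oracle)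
    (hlow : {A : Oracle | ∀ L, IsPSPACE A L → IsP A L ∧ IsBQP A L} ⊆ O)
    (hup : O ⊆ {A : Oracle | ∀ L, IsNP A L → QHeur γ A L}) :
    (∀ f : ℕ → ℝ, Null f O ↔
      ∀ ε : ℝ, 0 < ε → ∃ᶠ N : ℕ in atTop, f N ≤ 2 ^ (Real.logb 2 N) ^ ε) ∧
    ∀ g : ℕ → ℝ,
      ((∀ ε : ℝ, 0 < ε → ∃ᶠ n : ℕ in atTop, g n ≤ 2 ^ (n : ℝ) ^ ε) →
        ∀ᵐ B ∂randomOracle, ∀ A, Close g B A → A ∉ O) ∧
      ((¬ ∀ ε : ℝ, 0 < ε → ∃ᶠ n : ℕ in atTop, g n ≤ 2 ^ (n : ℝ) ^ ε) →
        ∀ B : Oracle, ∃ A ∈ O, Close g B A) := by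
  have hn : ∀ f : ℕ → ℝ, Cond f → Null f O := fun f hf => null_heur hf hγ0 hγ1 O hup
  have hr : Reach O := reach_pspace_bqp.mono hlow
  refine ⟨fun f => ⟨fun h => ?_, hn f⟩, fun g => ⟨fun hg => ae_far_P hn hg, fun hg B =>
    hr.close hg B⟩⟩
  by_contra hf
  exact hr.not_null hf h

end Pool.Agent.Helper11x.QG
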