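import Pool.Agent.H9x.Q.Size
import Pool.Agent.H620R2.Gauge2.V3
import Pool.Agent.H620R2.Gauge2.V4

/-!
# The acceptance probability of a quantum circuit is smooth

A function `P` on the cube is `Smooth T` if it notices changes at random sets of bits only if some
bit is changed with a large probability.
-/

set_option autoImplicit false

namespace Pool.Agent.Helper11x.QG

open Pool.Agent.NPC Pool.Agent.H620R2.Gauge Finset
open Pool.Agent.H9x.Q (QFamily Gate Short Basis prob wt tot run ket bit prob_diff hybrid ket_norm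
  act_norm)
open Pool.Agent.R562.QH (nrm nrm_nonneg)

/-- For every weighted family of points which differ from `a` such that every bit is changed with
weight at most `K`, the weighted sum of the squared differences of `P` is at most `T * K`. -/
def Smooth {I : Type} (T : ℝ) (P : (I → Bool) → ℝ) : Prop :=
  ∀ (ι : Type) [Fintype ι] (w : ι → ℝ) (K : ℝ) (a : I → Bool) (F : ι → I → Bool),
    (∀ i, 0 ≤ w i) → 0 ≤ K → (∀ e, ∑ i ∈ univ.filter (fun i => F i e ≠ a e), w i ≤ K) →
    ∑ i, w i * (P (F i) - P a) ^ 2 ≤ T * K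

variable {m : ℕ}

theorem sum_wt_w {ι : Type} [Fintype ι] (A : Oracle) (F : ι → Oracle) (w : ι → ℝ)
    (hw : ∀ i, 0 ≤ w i) (K : ℝ) (B : ℕ) (hK0 : 0 ≤ K)
    (hK : ∀ y : List Bool, y.length ≤ B → ∑ i ∈ univ.filter (fun i => F i y ≠ A y), w i ≤ K)
    (g : Gate) (hg : ∀ l r, g = .query l r → l.length ≤ B) (ψ : Basis m → ℂ) :
    ∑ i, w i * wt A (F i) g ψ ≤ K * ∑ z, ‖ψ z‖ ^ 2 := by
  classical
  have e : ∀ i, w i * wt A (F i) g ψ = ∑ z, (if ∃ y, g.asks z = some y ∧ F i y ≠ A y then
      w i else 0) * ‖ψ z‖ ^ 2 := by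
    intro i
    unfold wt
    rw [mul_sum]
    refine sum_congr rfl fun z _ => ?_
    split_ifs <;> simp
  rw [sum_congr rfl fun i _ => e i, sum_comm, mul_sum]
  refine sum_le_sum fun z _ => ?_
  rw [← sum_mul, ← sum_filter]
  refine mul_le_mul_of_nonneg_right ?_ (by positivity)
  cases g with
  | query l r =>
    refine le_trans ?_ (hK (l.map (bit z)) (by rw [List.length_map]; exact hg l r rfl))
    refine sum_le_sum_of_subset_of_nonneg (fun i hi => ?_) (fun i _ _ => hw i)
    rw [mem_filter] at hi ⊢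
    obtain ⟨_, y, hy, hy'⟩ := hi
    simp only [Gate.asks, Option.some.injEq] at hy
    subst hy
    exact ⟨mem_univ _, hy'⟩
  | had q => simp [Gate.asks, hK0]
  | tgate q => simp [Gate.asks, hK0]
  | cnot q r => simp [Gate.asks, hK0]

theorem sum_tot_w {ι : Type} [Fintype ι] (A : Oracle) (F : ι → Oracle) (w : ι → ℝ)
    (hw : ∀ i, 0 ≤ w i) (K : ℝ) (B : ℕ) (hK0 : 0 ≤ K)
    (hK : ∀ y : List Bool, y.length ≤ B → ∑ i ∈ univ.filter (fun i => F i y ≠ A y), w i ≤ K)
    (C : List Gate) (hC : Short B C) : ∀ ψ : Basis m → ℂ,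
    ∑ i, w i * tot A (F i) C ψ ≤ C.length * K * ∑ z, ‖ψ z‖ ^ 2 := by
  induction C with
  | nil => intro ψ; simp [tot]
  | cons g C ih =>
    intro ψ
    simp only [tot, mul_add]
    rw [sum_add_distrib]
    have h1 := sum_wt_w A F w hw K B hK0 hK g (fun l r h => hC l r (by rw [h]; simp)) ψ
    have h2 := ih (fun l r h => hC l r (List.mem_cons_of_mem _ h)) (g.act A ψ)
    rw [act_norm] at h2
    rw [List.length_cons]
    push_cast
    nlinarith

/-- The weighted form of the hybrid argument. -/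
theorem sum_prob_diff_w {ι : Type} [Fintype ι] (A : Oracle) (F : ι → Oracle) (w : ι → ℝ)
    (hw : ∀ i, 0 ≤ w i) (K : ℝ) (B : ℕ) (hK0 : 0 ≤ K)
    (hK : ∀ y : List Bool, y.length ≤ B → ∑ i ∈ univ.filter (fun i => F i y ≠ A y), w i ≤ K)
    (C : List Gate) (hC : Short B C) (m : ℕ) (x : List Bool) :
    ∑ i, w i * (prob (F i) C m x - prob A C m x) ^ 2 ≤ 16 * (C.length : ℝ) ^ 2 * K := by
  have h1 : ∀ i, (prob (F i) C m x - prob A C m x) ^ 2 ≤
      16 * C.length * tot A (F i) C (ket (Pool.Agent.H9x.Q.inp m x)) := by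
    intro i
    have h2 := prob_diff A (F i) C m x
    have h3 := hybrid A (F i) C (ket (Pool.Agent.H9x.Q.inp m x))
    have h4 := nrm_nonneg (run (F i) C (ket (Pool.Agent.H9x.Q.inp m x)) -
      run A C (ket (Pool.Agent.H9x.Q.inp m x)))
    have h5 : (prob (F i) C m x - prob A C m x) ^ 2 ≤
        (2 * nrm (run (F i) C (ket (Pool.Agent.H9x.Q.inp m x)) -
          run A C (ket (Pool.Agent.H9x.Q.inp m x)))) ^ 2 := by
      rw [← sq_abs]
      exact pow_le_pow_left₀ (abs_nonneg _) h2 2
    nlinarith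
  refine (sum_le_sum fun i _ => mul_le_mul_of_nonneg_left (h1 i) (hw i)).trans ?_
  have e : ∀ i, w i * (16 * C.length * tot A (F i) C (ket (Pool.Agent.H9x.Q.inp m x))) =
      16 * C.length * (w i * tot A (F i) C (ket (Pool.Agent.H9x.Q.inp m x))) := fun i => by ring
  rw [sum_congr rfl fun i _ => e i, ← mul_sum]
  have h2 := sum_tot_w A F w hw K B hK0 hK C hC (ket (Pool.Agent.H9x.Q.inp m x))
  have h3 : ∑ z, ‖ket (Pool.Agent.H9x.Q.inp m x) z‖ ^ 2 = (1 : ℝ) := ket_norm _
  rw [h3, mul_one] at h2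
  have h4 : (0 : ℝ) ≤ 16 * C.length := by positivity
  nlinarith [mul_le_mul_of_nonneg_left h2 h4]

/-- **The acceptance probability of a quantum circuit is smooth.** -/
theorem smooth_prob (C : List Gate) {B : ℕ} (hC : Short B C) (m : ℕ) (y : List Bool) (N : ℕ)
    {T : ℝ} (hT : 16 * (C.length : ℝ) ^ 2 ≤ T) :
    Smooth T (fun a : Fin N → Bool => prob (orc N a) C m y) := by
  intro ι _ w K a G hw hK0 hG
  have h := sum_prob_diff_w (orc N a) (fun i => orc N (G i)) w hw K B hK0 (by
    intro q _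
    unfold orc
    by_cases h : idx q < N
    · simp only [dif_pos h]
      exact hG _
    · simp only [dif_neg h]
      simpa using hK0) C hC m y
  exact h.trans (mul_le_mul_of_nonneg_right hT hK0)

end Pool.Agent.Helper11x.QG
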